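import Pool.Agent.GenTuran.Structure2

/-!
# The two constructions
-/

open SimpleGraph Finset

namespace Pool.Agent.GenTuran

open scoped Classical

/-- even vertices of the forbidden graph -/
def ev (p : ℕ) (i : Fin (p + 1)) : Fin (2 * p + 2) := ⟨2 * i.val, by omega⟩

/-- odd vertices of the forbidden graph -/
def od (p : ℕ) (i : Fin (p + 1)) : Fin (2 * p + 2) := ⟨2 * i.val + 1, by omega⟩

theorem ev_adj {p : ℕ} {i j : Fin (p + 1)} (hij : i ≠ j) : (Fgraph p).Adj (ev p i) (ev p j) := by
  rcases lt_or_gt_of_ne hij with h | h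
  · have h' : i.val < j.val := h
    rw [Fgraph_adj_iff (by simp only [ev]; omega)]
    simp only [ev]
    omega
  · have h' : j.val < i.val := h
    apply SimpleGraph.Adj.symm
    rw [Fgraph_adj_iff (by simp only [ev]; omega)]
    simp only [ev]
    omega

theorem od_adj {p : ℕ} {i j : Fin (p + 1)} (hij : i ≠ j) : (Fgraph p).Adj (od p i) (od p j) := by
  rcases lt_or_gt_of_ne hij with h | h
  · have h' : i.val < j.val := h
    rw [Fgraph_adj_iff (by simp only [od]; omega)]
    simp only [od]
    omega
  · have h' : j.val < i.val := h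
    apply SimpleGraph.Adj.symm
    rw [Fgraph_adj_iff (by simp only [od]; omega)]
    simp only [od]
    omega

/-- The dominating-vertex construction. -/
def starG (p q : ℕ) : SimpleGraph (Option (Fin p × Fin q)) where
  Adj x y := x ≠ y ∧ (x = none ∨ y = none ∨ ∃ u v, x = some u ∧ y = some v ∧ u.1 ≠ v.1)
  symm := ⟨by
    rintro x y ⟨h, h'⟩
    refine ⟨h.symm, ?_⟩
    rcases h' with h' | h' | ⟨u, v, hu, hv, huv⟩
    · exact Or.inr (Or.inl h')
    · exact Or.inl h'
    · exact Or.inr (Or.inr ⟨v, u, hv, hu, huv.symm⟩)⟩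
  loopless := ⟨fun x h => h.1 rfl⟩

theorem starG_adj_some {p q : ℕ} {u v : Fin p × Fin q} :
    (starG p q).Adj (some u) (some v) ↔ u.1 ≠ v.1 := by
  constructor
  · rintro ⟨-, h | h | ⟨u', v', hu, hv, huv⟩⟩
    · exact absurd h (by simp)
    · exact absurd h (by simp)
    · rw [Option.some_inj] at hu hv
      rw [hu, hv]
      exact huv
  · intro h
    refine ⟨?_, Or.inr (Or.inr ⟨u, v, rfl, rfl, h⟩)⟩
    intro hh
    rw [Option.some_inj] at hh
    exact h (by rw [hh])

theorem starG_adj_none {p q : ℕ} {u : Fin p × Fin q} : (starG p q).Adj none (some u) :=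
  ⟨by simp, Or.inl rfl⟩

/-- A clique of `p+1` vertices avoiding the dominating vertex is impossible. -/
theorem starG_no_clique {p q : ℕ} (c : Fin (p + 1) → Option (Fin p × Fin q))
    (hc : ∀ i j, i ≠ j → (starG p q).Adj (c i) (c j)) (hn : ∀ i, c i ≠ none) : False := by
  have h1 : ∀ i, ∃ u, c i = some u := fun i => Option.ne_none_iff_exists'.mp (hn i)
  choose u hu using h1
  obtain ⟨i, j, hij, hc'⟩ := Fintype.exists_ne_map_eq_of_card_lt (fun i => (u i).1)
    (by simp)
  have := hc i j hij
  rw [hu, hu, starG_adj_some] at this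
  exact this hc'

theorem starG_free (p q : ℕ) : ¬ Fgraph p ⊑ starG p q := by
  rintro ⟨f⟩
  have hev : ∃ i, f (ev p i) = none := by
    by_contra h
    push Not at h
    exact starG_no_clique (fun i => f (ev p i)) (fun i j hij => f.toHom.map_adj (ev_adj hij)) h
  have hod : ∃ i, f (od p i) = none := by
    by_contra h
    push Not at h
    exact starG_no_clique (fun i => f (od p i)) (fun i j hij => f.toHom.map_adj (od_adj hij)) h
  obtain ⟨i, hi⟩ := hev
  obtain ⟨j, hj⟩ := hod
  have := f.injective (hi.trans hj.symm)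
  simp only [ev, od, Fin.mk.injEq] at this
  omega

theorem card_ne_class {p q : ℕ} (i : Fin p) :
    (univ.filter fun x : Fin p × Fin q => x.1 ≠ i).card = (p - 1) * q := by
  have : (univ.filter fun x : Fin p × Fin q => x.1 ≠ i) = (univ.erase i) ×ˢ univ := by
    ext x
    simp
  rw [this, card_product, card_erase_of_mem (mem_univ i), card_univ, card_univ, Fintype.card_fin,
    Fintype.card_fin]

theorem starG_degree_none (p q : ℕ) : p * q ≤ (starG p q).degree none := by
  rw [← card_neighborFinset_eq_degree]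
  have h : (univ : Finset (Fin p × Fin q)).map Function.Embedding.some ⊆
      (starG p q).neighborFinset none := by
    intro x hx
    rw [mem_map] at hx
    obtain ⟨u, -, rfl⟩ := hx
    rw [mem_neighborFinset]
    exact starG_adj_none
  have := card_le_card h
  rw [card_map, card_univ, Fintype.card_prod, Fintype.card_fin, Fintype.card_fin] at this
  exact this

theorem starG_degree_some (p q : ℕ) (v : Fin p × Fin q) :
    (p - 1) * q + 1 ≤ (starG p q).degree (some v) := by
  rw [← card_neighborFinset_eq_degree]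
  have h : insert none ((univ.filter fun x : Fin p × Fin q => x.1 ≠ v.1).map
      Function.Embedding.some) ⊆ (starG p q).neighborFinset (some v) := by
    intro x hx
    rw [mem_insert, mem_map] at hx
    rw [mem_neighborFinset]
    rcases hx with rfl | ⟨u, hu, rfl⟩
    · exact starG_adj_none.symm
    · rw [mem_filter] at hu
      exact starG_adj_some.mpr hu.2.symm
  have := card_le_card h
  rw [card_insert_of_notMem (by simp), card_map, card_ne_class] at this
  exact this

theorem starG_cherries (p q : ℕ) :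
    (p * q).choose 2 + p * q * ((p - 1) * q + 1).choose 2 ≤ cherries (starG p q) := by
  unfold cherries
  rw [Fintype.sum_option]
  refine Nat.add_le_add (Nat.choose_le_choose 2 (starG_degree_none p q)) ?_
  calc p * q * ((p - 1) * q + 1).choose 2 =
      ∑ _v : Fin p × Fin q, ((p - 1) * q + 1).choose 2 := by
        rw [sum_const, card_univ, Fintype.card_prod, Fintype.card_fin, Fintype.card_fin,
          smul_eq_mul]
    _ ≤ _ := sum_le_sum (fun v _ => Nat.choose_le_choose 2 (starG_degree_some p q v))

/-- class of a vertex (the extra vertex is put into class zero) -/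
def cls {p q : ℕ} (x : Option (Fin (p + 1) × Fin q)) : Fin (p + 1) :=
  match x with
  | none => 0
  | some u => u.1

/-- index of a vertex in its class -/
def idx {p q : ℕ} (x : Option (Fin (p + 1) × Fin q)) : ℕ :=
  match x with
  | none => q
  | some u => u.2.val

theorem cls_idx_inj {p q : ℕ} {x y : Option (Fin (p + 1) × Fin q)} (h1 : cls x = cls y)
    (h2 : idx x = idx y) : x = y := by
  match x, y with
  | none, none => rfl
  | none, some v =>
    simp only [idx] at h2
    have := v.2.isLt
    omega
  | some u, none =>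
    simp only [idx] at h2
    have := u.2.isLt
    omega
  | some u, some v =>
    simp only [cls, idx] at h1 h2
    congr 1
    exact Prod.ext h1 (Fin.ext h2)

/-- The triangle construction. -/
def triG (p q : ℕ) : SimpleGraph (Option (Fin (p + 1) × Fin q)) where
  Adj x y := cls x ≠ cls y ∨ (cls x = 0 ∧ cls y = 0 ∧ idx x ≠ idx y ∧ idx x / 3 = idx y / 3)
  symm := ⟨by
    rintro x y (h | ⟨h1, h2, h3, h4⟩)
    · exact Or.inl h.symm
    · exact Or.inr ⟨h2, h1, h3.symm, h4.symm⟩⟩
  loopless := ⟨by
    rintro x (h | h)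
    · exact h rfl
    · exact h.2.2.1 rfl⟩

theorem triG_adj {p q : ℕ} {x y : Option (Fin (p + 1) × Fin q)} : (triG p q).Adj x y ↔
    (cls x ≠ cls y ∨ (cls x = 0 ∧ cls y = 0 ∧ idx x ≠ idx y ∧ idx x / 3 = idx y / 3)) := Iff.rfl

theorem triG_clique {p q : ℕ} (c : Fin (p + 1 + 1) → Option (Fin (p + 1) × Fin q))
    (hc : ∀ i j, i ≠ j → (triG p q).Adj (c i) (c j)) :
    ∃ i j, i ≠ j ∧ cls (c i) = 0 ∧ cls (c j) = 0 ∧ idx (c i) ≠ idx (c j) ∧
      idx (c i) / 3 = idx (c j) / 3 := by
  obtain ⟨i, j, hij, hc'⟩ := Fintype.exists_ne_map_eq_of_card_lt (fun i => cls (c i))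
    (by simp)
  refine ⟨i, j, hij, ?_⟩
  rcases hc i j hij with h | h
  · exact absurd hc' h
  · exact h

theorem triG_free {p q : ℕ} (hp : 1 ≤ p) : ¬ Fgraph (p + 1) ⊑ triG p q := by
  rintro ⟨f⟩
  obtain ⟨i, j, hij, ci, cj, hne, hg⟩ := triG_clique (fun i => f (ev (p + 1) i))
    (fun i j hij => f.toHom.map_adj (ev_adj hij))
  obtain ⟨k, l, hkl, ck, cl', hne', hg'⟩ := triG_clique (fun i => f (od (p + 1) i))
    (fun i j hij => f.toHom.map_adj (od_adj hij))
  have hneq : ∀ a b, idx (f (ev (p + 1) a)) = idx (f (od (p + 1) b)) →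
      cls (f (ev (p + 1) a)) = 0 → cls (f (od (p + 1) b)) = 0 → False := by
    intro a b h1 h2 h3
    have := f.injective (cls_idx_inj (h2.trans h3.symm) h1)
    simp only [ev, od, Fin.mk.injEq] at this
    omega
  by_cases hgg : idx (f (ev (p + 1) i)) / 3 = idx (f (od (p + 1) k)) / 3
  · have h1 := hneq i k
    have h2 := hneq i l
    have h3 := hneq j k
    have h4 := hneq j l
    have e1 : idx (f (ev (p + 1) i)) ≠ idx (f (od (p + 1) k)) := fun h => h1 h ci ck
    have e2 : idx (f (ev (p + 1) i)) ≠ idx (f (od (p + 1) l)) := fun h => h2 h ci cl'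
    have e3 : idx (f (ev (p + 1) j)) ≠ idx (f (od (p + 1) k)) := fun h => h3 h cj ck
    have e4 : idx (f (ev (p + 1) j)) ≠ idx (f (od (p + 1) l)) := fun h => h4 h cj cl'
    omega
  · -- all pairs (even, odd) are nonadjacent
    have hna : ∀ a b, cls (f (ev (p + 1) a)) = 0 → cls (f (od (p + 1) b)) = 0 →
        idx (f (ev (p + 1) a)) / 3 = idx (f (ev (p + 1) i)) / 3 →
        idx (f (od (p + 1) b)) / 3 = idx (f (od (p + 1) k)) / 3 →
        ¬ (Fgraph (p + 1)).Adj (ev (p + 1) a) (od (p + 1) b) := by
      intro a b h1 h2 h3 h4 hadj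
      have h5 : (triG p q).Adj (f (ev (p + 1) a)) (f (od (p + 1) b)) := f.toHom.map_adj hadj
      rcases h5 with h | ⟨-, -, -, h⟩
      · exact h (h1.trans h2.symm)
      · apply hgg
        rw [← h3, ← h4, h]
    have hcyc : ∀ a b, ¬ (Fgraph (p + 1)).Adj (ev (p + 1) a) (od (p + 1) b) →
        (b.val = a.val ∨ b.val + 1 = a.val ∨ (a.val = 0 ∧ b.val = p + 1)) := by
      intro a b h
      rcases lt_or_ge a.val (b.val + 1) with hab | hab
      · rw [Fgraph_adj_iff (by simp only [ev, od]; omega)] at h
        simp only [ev, od] at h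
        omega
      · rw [(Fgraph (p + 1)).adj_comm, Fgraph_adj_iff (by simp only [ev, od]; omega)] at h
        simp only [ev, od] at h
        omega
    have h1 := hcyc i k (hna i k ci ck rfl rfl)
    have h2 := hcyc i l (hna i l ci cl' rfl hg'.symm)
    have h3 := hcyc j k (hna j k cj ck hg.symm rfl)
    have h4 := hcyc j l (hna j l cj cl' hg.symm hg'.symm)
    have hij' : i.val ≠ j.val := fun h => hij (Fin.ext h)
    have hkl' : k.val ≠ l.val := fun h => hkl (Fin.ext h)
    omega

/-- the vertex of class zero with given index -/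
def vtx {p q : ℕ} (k : ℕ) : Option (Fin (p + 1) × Fin q) :=
  if h : k < q then some (0, ⟨k, h⟩) else none

theorem cls_vtx {p q : ℕ} (k : ℕ) : cls (vtx k : Option (Fin (p + 1) × Fin q)) = 0 := by
  unfold vtx
  split_ifs <;> rfl

theorem idx_vtx {p q : ℕ} {k : ℕ} (hk : k ≤ q) :
    idx (vtx k : Option (Fin (p + 1) × Fin q)) = k := by
  unfold vtx
  split_ifs with h
  · rfl
  · simp only [idx]
    omega

theorem idx_le {p q : ℕ} (x : Option (Fin (p + 1) × Fin q)) : idx x ≤ q := by
  match x with
  | none => exact le_rfl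
  | some u => exact u.2.isLt.le

theorem triG_degree_some {p q : ℕ} (v : Fin (p + 1) × Fin q) (hv : v.1 ≠ 0) :
    p * q + 1 ≤ (triG p q).degree (some v) := by
  rw [← card_neighborFinset_eq_degree]
  have h : insert none ((univ.filter fun x : Fin (p + 1) × Fin q => x.1 ≠ v.1).map
      Function.Embedding.some) ⊆ (triG p q).neighborFinset (some v) := by
    intro x hx
    rw [mem_insert, mem_map] at hx
    rw [mem_neighborFinset]
    rcases hx with rfl | ⟨u, hu, rfl⟩
    · exact Or.inl hv
    · rw [mem_filter] at hu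
      exact Or.inl hu.2.symm
  have := card_le_card h
  rw [card_insert_of_notMem (by simp), card_map, card_ne_class] at this
  simpa using this

theorem triG_degree_zero {p q t : ℕ} (hq : q = 3 * t + 2) (x : Option (Fin (p + 1) × Fin q))
    (hx : cls x = 0) : p * q + 2 ≤ (triG p q).degree x := by
  rw [← card_neighborFinset_eq_degree]
  have hi := idx_le x
  obtain ⟨k1, k2, h1, h2, h3, h4, h5, h6, h7⟩ : ∃ k1 k2, k1 ≤ q ∧ k2 ≤ q ∧ k1 ≠ k2 ∧
      idx x ≠ k1 ∧ idx x ≠ k2 ∧ idx x / 3 = k1 / 3 ∧ idx x / 3 = k2 / 3 := by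
    have hr : idx x % 3 = 0 ∨ idx x % 3 = 1 ∨ idx x % 3 = 2 := by omega
    rcases hr with hr | hr | hr
    · exact ⟨idx x + 1, idx x + 2, by omega, by omega, by omega, by omega, by omega, by omega,
        by omega⟩
    · exact ⟨idx x - 1, idx x + 1, by omega, by omega, by omega, by omega, by omega, by omega,
        by omega⟩
    · exact ⟨idx x - 1, idx x - 2, by omega, by omega, by omega, by omega, by omega, by omega,
        by omega⟩
  have h : insert (vtx k1) (insert (vtx k2)
      ((univ.filter fun x : Fin (p + 1) × Fin q => x.1 ≠ 0).map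
      Function.Embedding.some)) ⊆ (triG p q).neighborFinset x := by
    intro y hy
    rw [mem_insert, mem_insert, mem_map] at hy
    rw [mem_neighborFinset, triG_adj]
    rcases hy with rfl | rfl | ⟨u, hu, rfl⟩
    · right
      rw [cls_vtx, idx_vtx h1]
      exact ⟨hx, rfl, h4, h6⟩
    · right
      rw [cls_vtx, idx_vtx h2]
      exact ⟨hx, rfl, h5, h7⟩
    · rw [mem_filter] at hu
      left
      rw [hx]
      exact hu.2.symm
  have := card_le_card h
  have hn : ∀ k, (vtx k : Option (Fin (p + 1) × Fin q)) ∉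
      (univ.filter fun x : Fin (p + 1) × Fin q => x.1 ≠ 0).map Function.Embedding.some := by
    intro k hk
    rw [mem_map] at hk
    obtain ⟨u, hu, huk⟩ := hk
    rw [mem_filter] at hu
    apply hu.2
    have := cls_vtx (p := p) (q := q) k
    rw [← huk] at this
    exact this
  rw [card_insert_of_notMem, card_insert_of_notMem (hn k2), card_map, card_ne_class] at this
  · simp only [Nat.add_sub_cancel] at this
    omega
  · rw [mem_insert]
    rintro (h' | h')
    · have := congrArg idx h'
      rw [idx_vtx h1, idx_vtx h2] at this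
      exact h3 this
    · exact hn k1 h'

theorem triG_edges {p q t : ℕ} (hq : q = 3 * t + 2) :
    (p + 1) * p * q ^ 2 + 2 * ((p + 1) * q) + 2 ≤ 2 * (triG p q).edgeFinset.card := by
  rw [← sum_degrees_eq_twice_card_edges, Fintype.sum_option]
  have h1 := triG_degree_zero hq (none : Option (Fin (p + 1) × Fin q)) rfl
  have h2 : ∑ v : Fin (p + 1) × Fin q, (p * q + 1 + if v.1 = 0 then 1 else 0) ≤
      ∑ v : Fin (p + 1) × Fin q, (triG p q).degree (some v) := by
    apply sum_le_sum
    intro v _
    split_ifs with h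
    · exact triG_degree_zero hq (some v) h
    · exact triG_degree_some v h
  have h3 : ∑ v : Fin (p + 1) × Fin q, (p * q + 1 + if v.1 = 0 then 1 else 0) =
      (p + 1) * q * (p * q + 1) + q := by
    rw [sum_add_distrib, sum_const, card_univ, Fintype.card_prod, Fintype.card_fin,
      Fintype.card_fin, smul_eq_mul, Fintype.sum_prod_type]
    congr 1
    rw [Fintype.sum_eq_single (0 : Fin (p + 1))]
    · simp
    · intro x hx
      simp [hx]
  rw [h3] at h2
  calc (p + 1) * p * q ^ 2 + 2 * ((p + 1) * q) + 2 =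
      (p * q + 2) + ((p + 1) * q * (p * q + 1) + q) := by ring
    _ ≤ _ := Nat.add_le_add h1 h2

end Pool.Agent.GenTuran
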