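import Pool.Agent.GenTuran.Structure2
import Mathlib.Combinatorics.SimpleGraph.Hasse

/-!
# Number of copies of the path on three vertices and of an edge
-/

open SimpleGraph Finset

namespace Pool.Agent.GenTuran

open scoped Classical

set_option linter.unusedSectionVars false

theorem card_image_eq_of_ker {α β γ : Type*} [DecidableEq β] [DecidableEq γ]
    (s : Finset α) (f : α → β) (g : α → γ)
    (h : ∀ x ∈ s, ∀ y ∈ s, f x = f y ↔ g x = g y) : (s.image f).card = (s.image g).card := by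
  have hex : ∀ b, b ∈ s.image f → ∃ x, x ∈ s ∧ f x = b := by
    intro b hb
    simpa using hb
  choose k hk using hex
  refine card_bij (fun b hb => g (k b hb)) ?_ ?_ ?_
  · intro b hb
    exact mem_image_of_mem g (hk b hb).1
  · intro b hb b' hb' hh
    have := (h _ (hk b hb).1 _ (hk b' hb').1).mpr hh
    rw [(hk b hb).2, (hk b' hb').2] at this
    exact this
  · intro c hc
    rw [mem_image] at hc
    obtain ⟨x, hx, rfl⟩ := hc
    have hfx := mem_image_of_mem f hx
    refine ⟨f x, hfx, ?_⟩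
    exact (h _ (hk _ hfx).1 _ hx).mp (hk _ hfx).2

variable {V : Type*} [Fintype V] {G : SimpleGraph V}

theorem p3_adj {i j : Fin 3} : (pathGraph 3).Adj i j ↔
    ((i = 0 ∧ j = 1) ∨ (i = 1 ∧ j = 0) ∨ (i = 1 ∧ j = 2) ∨ (i = 2 ∧ j = 1)) := by
  rw [pathGraph_adj]
  revert i j
  decide

theorem toSubgraph_adj (f : Copy (pathGraph 3) G) (x y : V) :
    f.toSubgraph.Adj x y ↔ ((x = f 0 ∧ y = f 1) ∨ (x = f 1 ∧ y = f 0) ∨ (x = f 1 ∧ y = f 2) ∨
      (x = f 2 ∧ y = f 1)) := by
  rw [Subgraph.map_adj, Relation.map_apply]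
  constructor
  · rintro ⟨a, b, hab, rfl, rfl⟩
    rw [Subgraph.top_adj, p3_adj] at hab
    rcases hab with ⟨rfl, rfl⟩ | ⟨rfl, rfl⟩ | ⟨rfl, rfl⟩ | ⟨rfl, rfl⟩
    · exact Or.inl ⟨rfl, rfl⟩
    · exact Or.inr (Or.inl ⟨rfl, rfl⟩)
    · exact Or.inr (Or.inr (Or.inl ⟨rfl, rfl⟩))
    · exact Or.inr (Or.inr (Or.inr ⟨rfl, rfl⟩))
  · rintro (⟨rfl, rfl⟩ | ⟨rfl, rfl⟩ | ⟨rfl, rfl⟩ | ⟨rfl, rfl⟩)
    · exact ⟨0, 1, by rw [Subgraph.top_adj, p3_adj]; simp, rfl, rfl⟩
    · exact ⟨1, 0, by rw [Subgraph.top_adj, p3_adj]; simp, rfl, rfl⟩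
    · exact ⟨1, 2, by rw [Subgraph.top_adj, p3_adj]; simp, rfl, rfl⟩
    · exact ⟨2, 1, by rw [Subgraph.top_adj, p3_adj]; simp, rfl, rfl⟩

theorem toSubgraph_verts (f : Copy (pathGraph 3) G) (x : V) :
    x ∈ f.toSubgraph.verts ↔ (x = f 0 ∨ x = f 1 ∨ x = f 2) := by
  rw [Subgraph.map_verts]
  simp only [Subgraph.verts_top, Set.image_univ, Set.mem_range]
  constructor
  · rintro ⟨a, rfl⟩
    fin_cases a
    · exact Or.inl rfl
    · exact Or.inr (Or.inl rfl)
    · exact Or.inr (Or.inr rfl)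
  · rintro (rfl | rfl | rfl)
    · exact ⟨0, rfl⟩
    · exact ⟨1, rfl⟩
    · exact ⟨2, rfl⟩

theorem copy_adj01 (f : Copy (pathGraph 3) G) : G.Adj (f 1) (f 0) :=
  f.toHom.map_adj (p3_adj.mpr (by simp))

theorem copy_adj12 (f : Copy (pathGraph 3) G) : G.Adj (f 1) (f 2) :=
  f.toHom.map_adj (p3_adj.mpr (by simp))

theorem copy_ne02 (f : Copy (pathGraph 3) G) : f 0 ≠ f 2 :=
  fun h => absurd (f.injective h) (by decide)

theorem rev3 {A B C : Prop} : (A ∨ B ∨ C) ↔ (C ∨ B ∨ A) := by
  constructor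
  · rintro (h | h | h)
    · exact Or.inr (Or.inr h)
    · exact Or.inr (Or.inl h)
    · exact Or.inl h
  · rintro (h | h | h)
    · exact Or.inr (Or.inr h)
    · exact Or.inr (Or.inl h)
    · exact Or.inl h

theorem rev4 {A B C D : Prop} : (A ∨ B ∨ C ∨ D) ↔ (D ∨ C ∨ B ∨ A) := by
  constructor
  · rintro (h | h | h | h)
    · exact Or.inr (Or.inr (Or.inr h))
    · exact Or.inr (Or.inr (Or.inl h))
    · exact Or.inr (Or.inl h)
    · exact Or.inl h
  · rintro (h | h | h | h)
    · exact Or.inr (Or.inr (Or.inr h))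
    · exact Or.inr (Or.inr (Or.inl h))
    · exact Or.inr (Or.inl h)
    · exact Or.inl h

theorem toSubgraph_eq_iff (f g : Copy (pathGraph 3) G) :
    f.toSubgraph = g.toSubgraph ↔
      (⟨f 1, {f 0, f 2}⟩ : (_ : V) × Finset V) = ⟨g 1, {g 0, g 2}⟩ := by
  have f01 := (copy_adj01 f).ne
  have f12 := (copy_adj12 f).ne
  have f02 := copy_ne02 f
  have g01 := (copy_adj01 g).ne
  have g12 := (copy_adj12 g).ne
  have g02 := copy_ne02 g
  constructor
  · intro h
    have h1 : g.toSubgraph.Adj (f 1) (f 0) := by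
      rw [← h, toSubgraph_adj]
      exact Or.inr (Or.inl ⟨rfl, rfl⟩)
    have h2 : g.toSubgraph.Adj (f 1) (f 2) := by
      rw [← h, toSubgraph_adj]
      exact Or.inr (Or.inr (Or.inl ⟨rfl, rfl⟩))
    rw [toSubgraph_adj] at h1 h2
    have key : f 1 = g 1 ∧ ((f 0 = g 0 ∧ f 2 = g 2) ∨ (f 0 = g 2 ∧ f 2 = g 0)) := by
      rcases h1 with ⟨a, b⟩ | ⟨a, b⟩ | ⟨a, b⟩ | ⟨a, b⟩ <;>
        rcases h2 with ⟨c, d⟩ | ⟨c, d⟩ | ⟨c, d⟩ | ⟨c, d⟩
      · exact absurd (b.trans d.symm) f02
      · exact absurd (c.symm.trans a) g01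
      · exact absurd (c.symm.trans a) g01
      · exact absurd (b.trans d.symm) f02
      · exact absurd (a.symm.trans c) g01
      · exact absurd (b.trans d.symm) f02
      · exact ⟨a, Or.inl ⟨b, d⟩⟩
      · exact absurd (a.symm.trans c) g12
      · exact absurd (a.symm.trans c) g01
      · exact ⟨a, Or.inr ⟨b, d⟩⟩
      · exact absurd (b.trans d.symm) f02
      · exact absurd (a.symm.trans c) g12
      · exact absurd (b.trans d.symm) f02
      · exact absurd (c.symm.trans a) g12
      · exact absurd (c.symm.trans a) g12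
      · exact absurd (b.trans d.symm) f02
    obtain ⟨k1, ⟨k0, k2⟩ | ⟨k0, k2⟩⟩ := key
    · rw [k1, k0, k2]
    · rw [k1, k0, k2, Finset.pair_comm]
  · intro h
    rw [Sigma.mk.injEq] at h
    obtain ⟨h1, h2⟩ := h
    have h2 := eq_of_heq h2
    have key : (f 0 = g 0 ∧ f 2 = g 2) ∨ (f 0 = g 2 ∧ f 2 = g 0) := by
      have m0 : f 0 ∈ ({g 0, g 2} : Finset V) := by
        rw [← h2]
        simp
      have m2 : f 2 ∈ ({g 0, g 2} : Finset V) := by
        rw [← h2]
        simp
      rw [mem_insert, mem_singleton] at m0 m2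
      rcases m0 with m0 | m0 <;> rcases m2 with m2 | m2
      · exact absurd (m0.trans m2.symm) f02
      · exact Or.inl ⟨m0, m2⟩
      · exact Or.inr ⟨m0, m2⟩
      · exact absurd (m0.trans m2.symm) f02
    apply Subgraph.ext
    · ext x
      rw [toSubgraph_verts, toSubgraph_verts, h1]
      rcases key with ⟨k0, k2⟩ | ⟨k0, k2⟩
      · rw [k0, k2]
      · rw [k0, k2]
        exact rev3
    · ext x y
      rw [toSubgraph_adj, toSubgraph_adj, h1]
      rcases key with ⟨k0, k2⟩ | ⟨k0, k2⟩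
      · rw [k0, k2]
      · rw [k0, k2]
        exact rev4

/-- the copy with given centre and ends -/
def mkCopy {v a b : V} (ha : G.Adj v a) (hb : G.Adj v b) (hab : a ≠ b) :
    Copy (pathGraph 3) G where
  toHom :=
    { toFun := ![a, v, b]
      map_rel' := by
        intro i j hij
        rw [p3_adj] at hij
        rcases hij with ⟨rfl, rfl⟩ | ⟨rfl, rfl⟩ | ⟨rfl, rfl⟩ | ⟨rfl, rfl⟩
        · exact ha.symm
        · exact ha
        · exact hb
        · exact hb.symm }
  injective' := inj3 ha.ne.symm hab hb.ne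

theorem copyCount_p3 (G : SimpleGraph V) : G.copyCount (pathGraph 3) = cherries G := by
  rw [copyCount_eq_card_image_copyToSubgraph,
    card_image_eq_of_ker _ _ (fun f : Copy (pathGraph 3) G =>
      (⟨f 1, {f 0, f 2}⟩ : (_ : V) × Finset V)) (fun f _ g _ => toSubgraph_eq_iff f g)]
  have : (univ : Finset (Copy (pathGraph 3) G)).image (fun f : Copy (pathGraph 3) G =>
      (⟨f 1, {f 0, f 2}⟩ : (_ : V) × Finset V)) =
      univ.sigma (fun v => (G.neighborFinset v).powersetCard 2) := by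
    ext ⟨v, s⟩
    rw [mem_image, mem_sigma, mem_powersetCard]
    constructor
    · rintro ⟨f, -, hf⟩
      rw [Sigma.mk.injEq] at hf
      obtain ⟨rfl, hf⟩ := hf
      have hf := eq_of_heq hf
      refine ⟨mem_univ _, ?_, ?_⟩
      · intro x hx
        rw [← hf, mem_insert, mem_singleton] at hx
        rw [mem_neighborFinset]
        rcases hx with rfl | rfl
        · exact copy_adj01 f
        · exact copy_adj12 f
      · rw [← hf, card_pair (copy_ne02 f)]
    · rintro ⟨-, hs, hc⟩
      rw [card_eq_two] at hc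
      obtain ⟨a, b, hab, rfl⟩ := hc
      simp only at hs
      have ha : G.Adj v a := by
        have := hs (mem_insert_self a {b})
        rwa [mem_neighborFinset] at this
      have hb : G.Adj v b := by
        have := hs (mem_insert_of_mem (mem_singleton_self b))
        rwa [mem_neighborFinset] at this
      exact ⟨mkCopy ha hb hab, mem_univ _, rfl⟩
  rw [this, card_sigma]
  unfold cherries
  apply sum_congr rfl
  intro v _
  rw [card_powersetCard, card_neighborFinset_eq_degree]

theorem toSubgraph2_adj (f : Copy (⊤ : SimpleGraph (Fin 2)) G) (x y : V) :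
    f.toSubgraph.Adj x y ↔ ((x = f 0 ∧ y = f 1) ∨ (x = f 1 ∧ y = f 0)) := by
  rw [Subgraph.map_adj, Relation.map_apply]
  constructor
  · rintro ⟨a, b, hab, rfl, rfl⟩
    rw [Subgraph.top_adj, top_adj] at hab
    fin_cases a <;> fin_cases b
    · exact absurd rfl hab
    · exact Or.inl ⟨rfl, rfl⟩
    · exact Or.inr ⟨rfl, rfl⟩
    · exact absurd rfl hab
  · rintro (⟨rfl, rfl⟩ | ⟨rfl, rfl⟩)
    · exact ⟨0, 1, by rw [Subgraph.top_adj, top_adj]; decide, rfl, rfl⟩
    · exact ⟨1, 0, by rw [Subgraph.top_adj, top_adj]; decide, rfl, rfl⟩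

theorem toSubgraph2_verts (f : Copy (⊤ : SimpleGraph (Fin 2)) G) (x : V) :
    x ∈ f.toSubgraph.verts ↔ (x = f 0 ∨ x = f 1) := by
  rw [Subgraph.map_verts]
  simp only [Subgraph.verts_top, Set.image_univ, Set.mem_range]
  constructor
  · rintro ⟨a, rfl⟩
    fin_cases a
    · exact Or.inl rfl
    · exact Or.inr rfl
  · rintro (rfl | rfl)
    · exact ⟨0, rfl⟩
    · exact ⟨1, rfl⟩

theorem copyCount_edge (G : SimpleGraph V) :
    G.copyCount (⊤ : SimpleGraph (Fin 2)) = G.edgeFinset.card := by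
  rw [copyCount_eq_card_image_copyToSubgraph,
    card_image_eq_of_ker _ _ (fun f : Copy (⊤ : SimpleGraph (Fin 2)) G => s(f 0, f 1)) ?_]
  · congr 1
    ext e
    rw [mem_image, mem_edgeFinset]
    constructor
    · rintro ⟨f, -, rfl⟩
      rw [mem_edgeSet]
      exact f.toHom.map_adj (by rw [top_adj]; decide)
    · induction e with
      | h a b =>
        intro hab
        rw [mem_edgeSet] at hab
        refine ⟨⟨⟨![a, b], ?_⟩, ?_⟩, mem_univ _, rfl⟩
        · intro i j hij
          rw [top_adj] at hij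
          fin_cases i <;> fin_cases j
          · exact absurd rfl hij
          · exact hab
          · exact hab.symm
          · exact absurd rfl hij
        · intro i j hij
          have hne := hab.ne
          fin_cases i <;> fin_cases j
          · rfl
          · exact absurd hij hne
          · exact absurd hij hne.symm
          · rfl
  · intro f _ g _
    have hf : f 0 ≠ f 1 := fun h => absurd (f.injective h) (by decide)
    have hg : g 0 ≠ g 1 := fun h => absurd (g.injective h) (by decide)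
    rw [Sym2.eq_iff]
    constructor
    · intro h
      have h1 : g.toSubgraph.Adj (f 0) (f 1) := by
        rw [← h, toSubgraph2_adj]
        exact Or.inl ⟨rfl, rfl⟩
      rwa [toSubgraph2_adj] at h1
    · intro h
      apply Subgraph.ext
      · ext x
        rw [toSubgraph2_verts, toSubgraph2_verts]
        rcases h with ⟨h0, h1⟩ | ⟨h0, h1⟩
        · rw [h0, h1]
        · rw [h0, h1]
          exact or_comm
      · ext x y
        rw [toSubgraph2_adj, toSubgraph2_adj]
        rcases h with ⟨h0, h1⟩ | ⟨h0, h1⟩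
        · rw [h0, h1]
        · rw [h0, h1]
          exact or_comm

end Pool.Agent.GenTuran
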