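import Pool.Agent.GenTuran.Local3

/-!
# Counting edges touching a set of `3p` vertices
-/

open SimpleGraph Finset

namespace Pool.Agent.GenTuran

open scoped Classical

set_option linter.unusedSectionVars false

section

variable {V ι : Type*} [Fintype V] [Fintype ι] {G : SimpleGraph V} {D E : ι → Fin 3 → V} {p : ℕ}

/-- number of neighbours of `v` in `S` -/
noncomputable def dS (G : SimpleGraph V) (S : Finset V) (v : V) : ℕ := (S.filter (G.Adj v)).card

theorem dS_eq_sum (S : Finset V) (v : V) : dS G S v = ∑ u ∈ S, if G.Adj v u then 1 else 0 := by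
  unfold dS
  rw [card_filter]

theorem degree_eq_dS (v : V) [Fintype (G.neighborSet v)] : G.degree v = dS G univ v := by
  unfold dS
  rw [← card_neighborFinset_eq_degree]
  congr 1
  ext u
  simp

/-- twice the number of edges touching `S` -/
noncomputable def tcount (G : SimpleGraph V) (S : Finset V) : ℕ :=
  ∑ v ∈ S, dS G S v + 2 * ∑ v ∈ Sᶜ, dS G S v

theorem edges_split (G : SimpleGraph V) (S : Finset V) :
    2 * G.edgeFinset.card = 2 * (G.induce {v | v ∉ S}).edgeFinset.card + tcount G S := by
  have h1 : 2 * G.edgeFinset.card = ∑ v, ∑ u, if G.Adj v u then 1 else 0 := by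
    rw [← sum_degrees_eq_twice_card_edges]
    apply sum_congr rfl
    intro v _
    rw [degree_eq_dS, dS_eq_sum]
  have h2 : 2 * (G.induce {v | v ∉ S}).edgeFinset.card =
      ∑ v ∈ Sᶜ, ∑ u ∈ Sᶜ, if G.Adj v u then 1 else 0 := by
    rw [← sum_degrees_eq_twice_card_edges]
    have h3 : ∀ v : {v | v ∉ S}, (G.induce {v | v ∉ S}).degree v =
        ∑ u ∈ Sᶜ, if G.Adj v.1 u then 1 else 0 := by
      intro v
      rw [degree_eq_dS, dS_eq_sum]
      symm
      have h4 : ∑ u ∈ Sᶜ, (if G.Adj v.1 u then 1 else 0) =
          ∑ u : {v | v ∉ S}, (if G.Adj v.1 u.1 then 1 else 0) := by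
        refine Finset.sum_subtype Sᶜ (p := fun v => v ∈ {v | v ∉ S}) ?_ _
        intro x
        simp
      rw [h4]
      apply sum_congr rfl
      intro u _
      simp [comap_adj]
    rw [sum_congr rfl (fun v _ => h3 v)]
    symm
    refine Finset.sum_subtype Sᶜ (p := fun v => v ∈ {v | v ∉ S}) ?_ _
    intro x
    simp
  rw [h1, h2]
  unfold tcount
  have h5 : ∀ f : V → ℕ, ∑ v, f v = ∑ v ∈ S, f v + ∑ v ∈ Sᶜ, f v := by
    intro f
    rw [sum_add_sum_compl]
  rw [h5]
  have h6 : ∀ v, ∑ u, (if G.Adj v u then 1 else 0) =
      dS G S v + ∑ u ∈ Sᶜ, if G.Adj v u then 1 else 0 := by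
    intro v
    rw [h5, dS_eq_sum]
  rw [sum_congr rfl (fun v _ => h6 v), sum_congr rfl (fun v _ => h6 v), sum_add_distrib,
    sum_add_distrib]
  have h7 : ∑ v ∈ S, ∑ u ∈ Sᶜ, (if G.Adj v u then 1 else 0) = ∑ v ∈ Sᶜ, dS G S v := by
    rw [sum_comm]
    apply sum_congr rfl
    intro v _
    rw [dS_eq_sum]
    apply sum_congr rfl
    intro u _
    simp only [G.adj_comm]
  rw [h7]
  ring

/-- The vertex set of a family of classes. -/
noncomputable def cset (D : ι → Fin 3 → V) : Finset V :=
  univ.image (fun x : ι × Fin 3 => D x.1 x.2)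

theorem mem_cset {v : V} : v ∈ cset D ↔ ∃ i a, D i a = v := by
  unfold cset
  simp

theorem not_mem_cset {v : V} : v ∈ (cset D)ᶜ ↔ Outside D v := by
  rw [mem_compl, mem_cset]
  unfold Outside
  push Not
  rfl

theorem IsCopy.injective (hD : IsCopy G D) :
    Function.Injective (fun x : ι × Fin 3 => D x.1 x.2) := by
  rintro ⟨i, a⟩ ⟨j, b⟩ h
  simp only at h
  by_cases hij : i = j
  · subst hij
    rw [hD.inj i h]
  · exact absurd h (hD.adj _ _ _ _ hij).ne

theorem update_injective (hD : IsCopy G D) {u : V} (hu : Outside D u) (j : ι) :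
    Function.Injective (fun x : ι × Fin 3 =>
      Function.update D j ![D j 0, D j 1, u] x.1 x.2) := by
  rintro ⟨i, a⟩ ⟨k, b⟩ h
  simp only at h
  have hinj : Function.Injective ![D j 0, D j 1, u] := by
    apply inj3
    · exact fun h => absurd (hD.inj j h) (by decide)
    · exact hu _ _
    · exact hu _ _
  have hne : ∀ l, l ≠ j → ∀ a b, ![D j 0, D j 1, u] a ≠ D l b := by
    intro l hl a b
    refine forall3 (P := fun v => v ≠ D l b) ?_ ?_ ?_ a
    · exact (hD.adj _ _ _ _ hl.symm).ne
    · exact (hD.adj _ _ _ _ hl.symm).ne
    · exact (hu _ _).symm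
  by_cases hi : i = j
  · by_cases hk : k = j
    · subst hi
      subst hk
      rw [Function.update_self] at h
      rw [hinj h]
    · subst hi
      rw [Function.update_self, Function.update_of_ne hk] at h
      exact absurd h (hne k hk a b)
  · by_cases hk : k = j
    · subst hk
      rw [Function.update_self, Function.update_of_ne hi] at h
      exact absurd h.symm (hne i hi b a)
    · rw [Function.update_of_ne hi, Function.update_of_ne hk] at h
      by_cases hik : i = k
      · subst hik
        rw [hD.inj i h]
      · exact absurd h (hD.adj _ _ _ _ hik).ne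

theorem card_cset (hE : Function.Injective (fun x : ι × Fin 3 => E x.1 x.2))
    (hp : Fintype.card ι = p) : (cset E).card = 3 * p := by
  unfold cset
  rw [card_image_of_injective _ hE, card_univ, Fintype.card_prod, hp, Fintype.card_fin, mul_comm]

theorem sum_cset (hE : Function.Injective (fun x : ι × Fin 3 => E x.1 x.2)) (f : V → ℕ) :
    ∑ v ∈ cset E, f v = ∑ i, ∑ a, f (E i a) := by
  unfold cset
  rw [sum_image (fun x _ y _ h => hE h), Fintype.sum_prod_type]

theorem dS_cset (hE : Function.Injective (fun x : ι × Fin 3 => E x.1 x.2)) (v : V) :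
    dS G (cset E) v = ∑ i, aC G E v i := by
  rw [dS_eq_sum, sum_cset hE]
  apply sum_congr rfl
  intro i _
  unfold aC
  rw [card_filter]

theorem dS_add_sum_mC (hE : Function.Injective (fun x : ι × Fin 3 => E x.1 x.2))
    (hp : Fintype.card ι = p) (v : V) : dS G (cset E) v + ∑ i, mC G E v i = 3 * p := by
  rw [dS_cset hE, ← sum_add_distrib, sum_congr rfl (fun i _ => aC_add_mC v i), sum_const,
    card_univ, hp, smul_eq_mul, mul_comm]

/-- The sum over the copy itself. -/
theorem inner_sum_le (hE : Function.Injective (fun x : ι × Fin 3 => E x.1 x.2))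
    (hp : Fintype.card ι = p) (hp2 : 2 ≤ p) :
    ∑ v ∈ cset E, dS G (cset E) v ≤
      3 * p * (3 * p - 3) + ∑ i, ∑ a, aC G E (E i a) i := by
  rw [sum_cset hE]
  have h1 : ∀ i a, dS G (cset E) (E i a) ≤ (3 * p - 3) + aC G E (E i a) i := by
    intro i a
    have h2 := dS_add_sum_mC (G := G) hE hp (E i a)
    have h3 := aC_add_mC (G := G) (D := E) (E i a) i
    have h4 := sum_one_le (f := mC G E (E i a)) i
    omega
  calc ∑ i, ∑ a, dS G (cset E) (E i a) ≤ ∑ i, ∑ a : Fin 3, ((3 * p - 3) + aC G E (E i a) i) :=
        sum_le_sum (fun i _ => sum_le_sum (fun a _ => h1 i a))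
    _ = 3 * p * (3 * p - 3) + ∑ i, ∑ a, aC G E (E i a) i := by
        simp only [sum_add_distrib, sum_const, card_univ, hp, smul_eq_mul, Fintype.card_fin]
        ring

theorem outer_sum_le (hE : Function.Injective (fun x : ι × Fin 3 => E x.1 x.2))
    (hp : Fintype.card ι = p) (x : V → ℕ)
    (hx : ∀ v, Outside E v → dS G (cset E) v ≤ (3 * p - 3) + x v) :
    ∑ v ∈ (cset E)ᶜ, dS G (cset E) v ≤
      (Fintype.card V - 3 * p) * (3 * p - 3) + ∑ v ∈ (cset E)ᶜ, x v := by
  calc ∑ v ∈ (cset E)ᶜ, dS G (cset E) v ≤ ∑ v ∈ (cset E)ᶜ, ((3 * p - 3) + x v) :=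
        sum_le_sum (fun v hv => hx v (not_mem_cset.mp hv))
    _ = (Fintype.card V - 3 * p) * (3 * p - 3) + ∑ v ∈ (cset E)ᶜ, x v := by
        rw [sum_add_distrib, sum_const, card_compl, card_cset hE hp, smul_eq_mul]

/-- the target value (twice the number of edges touched) -/
def target (p n : ℕ) : ℕ := 3 * p * (3 * p - 3) + 6 + 2 * ((n - 3 * p) * (3 * p - 3))

theorem sum_inner_single {j : ι} {f : ι → ℕ} (h : ∀ i, i ≠ j → f i = 0) : ∑ i, f i = f j := by
  apply sum_eq_single
  · intro i _ hi
    exact h i hi
  · intro h
    exact absurd (mem_univ j) h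

theorem aC_eq_zero {u : V} {i : ι} (h : ∀ a, ¬ G.Adj u (D i a)) : aC G D u i = 0 := by
  unfold aC
  rw [card_eq_zero, filter_eq_empty_iff]
  intro a _
  exact h a

theorem aC_le_two {j : ι} (a : Fin 3) : aC G D (D j a) j ≤ 2 := by
  have h1 := aC_add_mC (G := G) (D := D) (D j a) j
  have h2 : 1 ≤ mC G D (D j a) j := mC_ge_one (a := a) (G.loopless.irrefl _)
  omega

theorem aC_le_one {j : ι} {a b : Fin 3} (hab : a ≠ b) (h : ¬ G.Adj (D j a) (D j b)) :
    aC G D (D j a) j ≤ 1 := by
  have h1 := aC_add_mC (G := G) (D := D) (D j a) j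
  have h2 : 2 ≤ mC G D (D j a) j := mC_ge_two hab (G.loopless.irrefl _) h
  omega

/-- Dominating vertex case. -/
theorem dom_count (hD : IsCopy G D) (hp : Fintype.card ι = p) (hp2 : 2 ≤ p)
    (hF : ¬ Fgraph p ⊑ G) {w : V} (hw : ∀ i a, G.Adj w (D i a)) :
    tcount G (cset D) ≤ target p (Fintype.card V) ∧
      (tcount G (cset D) = target p (Fintype.card V) →
        ∀ v, Outside D v → v ≠ w → ∑ i, mC G D v i = 3) := by
  have hinj := hD.injective
  have hin := inner_sum_le (G := G) hinj hp hp2
  have hin0 : ∑ i, ∑ a, aC G D (D i a) i = 0 := by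
    apply sum_eq_zero
    intro i _
    apply sum_eq_zero
    intro a _
    exact aC_eq_zero (fun b => dom_no_inner hD hp hp2 hF hw i a b)
  rw [hin0, add_zero] at hin
  let x : V → ℕ := fun v => if v = w then 3 else 0
  have hwout : Outside D w := fun i a h => (hw i a).ne h.symm
  have hsumx : ∑ v ∈ (cset D)ᶜ, x v = 3 := by
    simp only [x]
    rw [sum_ite_eq' (cset D)ᶜ w, if_pos (not_mem_cset.mpr hwout)]
  have hb : ∀ v, Outside D v → v ≠ w → 3 ≤ ∑ i, mC G D v i := by
    intro v hv hvw
    by_contra hcon
    push Not at hcon
    obtain ⟨i, hi⟩ := dom_outside hD hp hp2 hF hw hv hvw (by omega)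
    have := sum_one_le (f := mC G D v) i
    omega
  have hx : ∀ v, Outside D v → dS G (cset D) v ≤ (3 * p - 3) + x v := by
    intro v hv
    have h2 := dS_add_sum_mC (G := G) hinj hp v
    by_cases hvw : v = w
    · simp only [x, hvw, if_true]
      rw [hvw] at h2
      omega
    · have := hb v hv hvw
      simp only [x, hvw, if_false]
      omega
  have hout := outer_sum_le hinj hp x hx
  rw [hsumx] at hout
  constructor
  · unfold tcount target
    omega
  · intro heq
    have heq2 : ∑ v ∈ (cset D)ᶜ, dS G (cset D) v =
      (Fintype.card V - 3 * p) * (3 * p - 3) + 3 := by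
      unfold tcount target at heq
      omega
    have heq3 : ∑ v ∈ (cset D)ᶜ, dS G (cset D) v = ∑ v ∈ (cset D)ᶜ, ((3 * p - 3) + x v) := by
      rw [heq2, sum_add_distrib, sum_const, card_compl, card_cset hinj hp, smul_eq_mul, hsumx]
    have heq4 := (sum_eq_sum_iff_of_le (fun v hv => hx v (not_mem_cset.mp hv))).mp heq3
    intro v hv hvw
    have h5 := heq4 v (not_mem_cset.mpr hv)
    simp only [x, hvw, if_false] at h5
    have h2 := dS_add_sum_mC (G := G) hinj hp v
    omega

/-- Triangle case. -/
theorem tri_count (hD : IsCopy G D) (hp : Fintype.card ι = p) (hp2 : 2 ≤ p)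
    (hF : ¬ Fgraph p ⊑ G) {j : ι} (htri : ∀ a b, a ≠ b → G.Adj (D j a) (D j b)) :
    tcount G (cset D) ≤ target p (Fintype.card V) ∧
      (tcount G (cset D) = target p (Fintype.card V) →
        ∀ v, Outside D v → ∑ i, mC G D v i = 3) := by
  have hinj := hD.injective
  have hin := inner_sum_le (G := G) hinj hp hp2
  have hin0 : ∑ i, ∑ a, aC G D (D i a) i ≤ 6 := by
    rw [sum_inner_single (j := j)]
    · calc ∑ a, aC G D (D j a) j ≤ ∑ a : Fin 3, 2 := sum_le_sum (fun a _ => aC_le_two a)
        _ = 6 := by simp
    · intro i hi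
      apply sum_eq_zero
      intro a _
      exact aC_eq_zero (fun b => two_inner hD hp hF (Ne.symm hi) (htri 0 1 (by decide)) a b)
  have hb : ∀ v, Outside D v → 3 ≤ ∑ i, mC G D v i := by
    intro v hv
    by_contra hcon
    push Not at hcon
    obtain ⟨i, hi⟩ := tri_outside hD hp hp2 hF htri hv (by omega)
    have := sum_one_le (f := mC G D v) i
    omega
  have hx : ∀ v, Outside D v → dS G (cset D) v ≤ (3 * p - 3) + (fun _ => 0) v := by
    intro v hv
    have h2 := dS_add_sum_mC (G := G) hinj hp v
    have := hb v hv
    simp only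
    omega
  have hout := outer_sum_le hinj hp (fun _ => 0) hx
  rw [sum_const_zero, add_zero] at hout
  constructor
  · unfold tcount target
    omega
  · intro heq
    have heq2 : ∑ v ∈ (cset D)ᶜ, dS G (cset D) v =
      (Fintype.card V - 3 * p) * (3 * p - 3) := by
      unfold tcount target at heq
      omega
    have heq3 : ∑ v ∈ (cset D)ᶜ, dS G (cset D) v =
        ∑ v ∈ (cset D)ᶜ, ((3 * p - 3) + (fun _ => 0) v) := by
      rw [heq2, sum_add_distrib, sum_const, card_compl, card_cset hinj hp, smul_eq_mul,
        sum_const_zero, add_zero]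
    have heq4 := (sum_eq_sum_iff_of_le (fun v hv => hx v (not_mem_cset.mp hv))).mp heq3
    intro v hv
    have h5 := heq4 v (not_mem_cset.mpr hv)
    simp only at h5
    have h2 := dS_add_sum_mC (G := G) hinj hp v
    omega

/-- If neither a dominating vertex nor a triangle class exists, some set of `3p` vertices
touches strictly fewer edges than the target. -/
theorem strict_count (hD0 : IsCopy G D) (hp : Fintype.card ι = p) (hp2 : 2 ≤ p)
    (hF : ¬ Fgraph p ⊑ G) (hdom : ¬ HasDom ι G) (htri : ¬ HasTri ι G) :
    ∃ S : Finset V, S.card = 3 * p ∧ tcount G S + 2 ≤ target p (Fintype.card V) := by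
  by_cases hpath : HasPath ι G
  · obtain ⟨D, hD, j, h01, h12⟩ := hpath
    have hinj := hD.injective
    have hin := inner_sum_le (G := G) hinj hp hp2
    have h02 : ¬ G.Adj (D j 0) (D j 2) := by
      intro h02
      apply htri
      refine ⟨D, hD, j, ?_⟩
      intro a b hab
      fin_cases a <;> fin_cases b
      · exact absurd rfl hab
      · exact h01
      · exact h02
      · exact h01.symm
      · exact absurd rfl hab
      · exact h12
      · exact h02.symm
      · exact h12.symm
      · exact absurd rfl hab
    have hin0 : ∑ i, ∑ a, aC G D (D i a) i ≤ 4 := by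
      rw [sum_inner_single (j := j)]
      · rw [Fin.sum_univ_three]
        have e0 := aC_le_one (G := G) (D := D) (j := j) (show (0 : Fin 3) ≠ 2 by decide) h02
        have e1 := aC_le_two (G := G) (D := D) (j := j) 1
        have e2 := aC_le_one (G := G) (D := D) (j := j) (show (2 : Fin 3) ≠ 0 by decide)
          (fun h => h02 h.symm)
        omega
      · intro i hi
        apply sum_eq_zero
        intro a _
        exact aC_eq_zero (fun b => two_inner hD hp hF (Ne.symm hi) h01 a b)
    have hx : ∀ v, Outside D v → dS G (cset D) v ≤ (3 * p - 3) + (fun _ => 0) v := by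
      intro v hv
      have h2 := dS_add_sum_mC (G := G) hinj hp v
      have := path_outside hD hp hp2 hF hdom h01 h12 hv
      simp only
      omega
    have hout := outer_sum_le hinj hp (fun _ => 0) hx
    rw [sum_const_zero, add_zero] at hout
    refine ⟨cset D, card_cset hinj hp, ?_⟩
    unfold tcount target
    omega
  by_cases hedge : HasEdge ι G
  · obtain ⟨D, hD, j, h01⟩ := hedge
    have hinj := hD.injective
    have h02 : ¬ G.Adj (D j 0) (D j 2) := by
      intro h02
      apply hpath
      refine ⟨Function.update D j ![D j 1, D j 0, D j 2], hD.update j _ (inj3 h01.ne.symm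
        (fun h => absurd (hD.inj j h) (by decide)) h02.ne) ?_, j, ?_, ?_⟩
      · intro l hl a b
        refine forall3 (P := fun v => G.Adj v (D l b)) ?_ ?_ ?_ a
        · exact hD.adj _ _ _ _ hl.symm
        · exact hD.adj _ _ _ _ hl.symm
        · exact hD.adj _ _ _ _ hl.symm
      · rw [Function.update_self]
        exact h01.symm
      · rw [Function.update_self]
        exact h02
    have h12 : ¬ G.Adj (D j 1) (D j 2) := fun h12 => hpath ⟨D, hD, j, h01, h12⟩
    by_cases hii : ∃ u, Outside D u ∧ G.Adj u (D j 0) ∧ G.Adj u (D j 1) ∧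
        ∃ l0 c, l0 ≠ j ∧ ¬ G.Adj u (D l0 c) ∧
          ∀ l a, l ≠ j → (l ≠ l0 ∨ a ≠ c) → G.Adj u (D l a)
    · obtain ⟨u, hu, hu0, hu1, l0, c, hl0, huc, huall⟩ := hii
      let E := Function.update D j ![D j 0, D j 1, u]
      have Ej : E j = ![D j 0, D j 1, u] := by simp only [E]; rw [Function.update_self]
      have El : ∀ l, l ≠ j → E l = D l := by
        intro l hl
        simp only [E]
        rw [Function.update_of_ne hl]
      have hEinj : Function.Injective (fun x : ι × Fin 3 => E x.1 x.2) :=
        update_injective hD hu j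
      have hb := fun z (hz : Outside E z) =>
        star_outside hD hp hp2 hF hl0 h01 hu hu0 hu1 huall hz
      have hx : ∀ v, Outside E v → dS G (cset E) v ≤ (3 * p - 3) + (fun _ => 0) v := by
        intro v hv
        have h2 := dS_add_sum_mC (G := G) hEinj hp v
        have h3 : 3 ≤ ∑ i, mC G E v i := hb v hv
        simp only
        omega
      have hout := outer_sum_le hEinj hp (fun _ => 0) hx
      rw [sum_const_zero, add_zero] at hout
      -- the inner sum
      have hinner : ∑ v ∈ cset E, dS G (cset E) v ≤ 3 * p * (3 * p - 3) + 4 := by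
        rw [sum_cset hEinj]
        -- bound for each vertex
        let y : ι → Fin 3 → ℕ := fun i a =>
          if i = j then (if a = 2 then 1 else 2) else 0
        let z : ι → Fin 3 → ℕ := fun i a => if i = l0 ∧ a = c then 1 else 0
        have hbd : ∀ i a, dS G (cset E) (E i a) + z i a ≤ (3 * p - 3) + y i a := by
          intro i a
          have h2 := dS_add_sum_mC (G := G) hEinj hp (E i a)
          by_cases hi : i = j
          · subst hi
            have hz0 : z i a = 0 := by
              simp only [z]
              rw [if_neg]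
              rintro ⟨h, -⟩
              exact hl0 h.symm
            rw [hz0]
            have h3 := aC_le_two (G := G) (D := E) (j := i) a
            have h4 := aC_add_mC (G := G) (D := E) (E i a) i
            by_cases ha : a = 2
            · subst ha
              have hy : y i 2 = 1 := by simp [y]
              rw [hy]
              have hm : 1 ≤ mC G E (E i 2) l0 := by
                apply mC_ge_one (a := c)
                rw [El l0 hl0, Ej]
                exact huc
              have h5 := sum_two_le (f := mC G E (E i 2)) hl0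
              omega
            · have hy : y i a = 2 := by simp [y, ha]
              rw [hy]
              have h5 := sum_one_le (f := mC G E (E i a)) i
              omega
          · have hy : y i a = 0 := by simp [y, hi]
            rw [hy]
            have hm3 : mC G E (E i a) i = 3 := by
              apply mC_three
              intro b
              rw [El i hi]
              exact two_inner hD hp hF (Ne.symm hi) h01 a b
            by_cases hz : i = l0 ∧ a = c
            · obtain ⟨rfl, rfl⟩ := hz
              have hz1 : z i a = 1 := by simp [z]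
              rw [hz1]
              have hm : 1 ≤ mC G E (E i a) j := by
                apply mC_ge_one (a := 2)
                rw [El i hi, Ej]
                exact fun h => huc h.symm
              have h5 := sum_two_le (f := mC G E (E i a)) hi
              omega
            · have hz0 : z i a = 0 := by
                simp only [z]
                rw [if_neg hz]
              rw [hz0]
              have h5 := sum_one_le (f := mC G E (E i a)) i
              omega
        have hsum : ∑ i, ∑ a, (dS G (cset E) (E i a) + z i a) ≤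
            ∑ i, ∑ a : Fin 3, ((3 * p - 3) + y i a) :=
          sum_le_sum (fun i _ => sum_le_sum (fun a _ => hbd i a))
        have hsz : ∑ i, ∑ a, z i a = 1 := by
          simp only [z]
          rw [sum_inner_single (j := l0)]
          · simp
          · intro i hi
            apply sum_eq_zero
            intro a _
            rw [if_neg]
            rintro ⟨h, -⟩
            exact hi h
        have hsy : ∑ i, ∑ a, y i a = 5 := by
          simp only [y]
          rw [sum_inner_single (j := j)]
          · simp [Fin.sum_univ_three]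
          · intro i hi
            apply sum_eq_zero
            intro a _
            rw [if_neg hi]
        have hconst : ∑ _i : ι, ∑ _a : Fin 3, (3 * p - 3) = 3 * p * (3 * p - 3) := by
          simp only [sum_const, card_univ, hp, smul_eq_mul, Fintype.card_fin]
          ring
        have e1 : ∑ i, ∑ a, (dS G (cset E) (E i a) + z i a) =
            ∑ i, ∑ a, dS G (cset E) (E i a) + ∑ i, ∑ a, z i a := by
          rw [← sum_add_distrib]
          apply sum_congr rfl
          intro i _
          rw [sum_add_distrib]
        have e2 : ∑ i, ∑ a : Fin 3, ((3 * p - 3) + y i a) =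
            ∑ _i : ι, ∑ _a : Fin 3, (3 * p - 3) + ∑ i, ∑ a, y i a := by
          rw [← sum_add_distrib]
          apply sum_congr rfl
          intro i _
          rw [sum_add_distrib]
        rw [e1, e2, hsz, hsy, hconst] at hsum
        omega
      refine ⟨cset E, card_cset hEinj hp, ?_⟩
      unfold tcount target
      omega
    · push Not at hii
      have hin := inner_sum_le (G := G) hinj hp hp2
      have hin0 : ∑ i, ∑ a, aC G D (D i a) i ≤ 2 := by
        rw [sum_inner_single (j := j)]
        · rw [Fin.sum_univ_three]
          have e0 := aC_le_one (G := G) (D := D) (j := j) (show (0 : Fin 3) ≠ 2 by decide) h02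
          have e1 := aC_le_one (G := G) (D := D) (j := j) (show (1 : Fin 3) ≠ 2 by decide) h12
          have e2 : aC G D (D j 2) j = 0 := by
            apply aC_eq_zero
            intro a
            fin_cases a
            · exact fun h => h02 h.symm
            · exact fun h => h12 h.symm
            · exact G.loopless.irrefl _
          omega
        · intro i hi
          apply sum_eq_zero
          intro a _
          exact aC_eq_zero (fun b => two_inner hD hp hF (Ne.symm hi) h01 a b)
      have hcase : ∀ v, Outside D v → ∑ i, mC G D v i ≤ 2 →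
          (G.Adj v (D j 2) ∧ ∑ i, mC G D v i = 2 ∧ ∀ l, l ≠ j → ∀ a, G.Adj v (D l a)) := by
        intro v hv hs
        rcases edge_outside hD hp hp2 hF htri hpath h01 hv hs with h | ⟨h0, h1, l0, c, hl0, hc, hall⟩
        · exact h
        · exfalso
          obtain ⟨l, a, hl, hla, hna⟩ := hii v hv h0 h1 l0 c hl0 hc
          exact hna (hall l a hl hla)
      let x : V → ℕ := fun v => if ∑ i, mC G D v i ≤ 2 then 1 else 0
      have hx : ∀ v, Outside D v → dS G (cset D) v ≤ (3 * p - 3) + x v := by
        intro v hv
        have h2 := dS_add_sum_mC (G := G) hinj hp v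
        by_cases hs : ∑ i, mC G D v i ≤ 2
        · have hx1 : x v = 1 := by simp only [x, hs, if_true]
          have := (hcase v hv hs).2.1
          omega
        · omega
      have hout := outer_sum_le hinj hp x hx
      have hx1 : ∑ v ∈ (cset D)ᶜ, x v ≤ 1 := by
        simp only [x]
        rw [← card_filter, card_le_one]
        intro a ha b hb
        rw [mem_filter, not_mem_cset] at ha hb
        obtain ⟨ha1, -, ha3⟩ := hcase a ha.1 ha.2
        obtain ⟨hb1, -, hb3⟩ := hcase b hb.1 hb.2
        exact edge_unique hD hpath ha.1 hb.1 ha1 hb1 ha3 hb3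
      refine ⟨cset D, card_cset hinj hp, ?_⟩
      unfold tcount target
      omega
  · -- no inner edges at all
    have hinj := hD0.injective
    have hin := inner_sum_le (G := G) hinj hp hp2
    have hnoinner : ∀ i a b, ¬ G.Adj (D i a) (D i b) := by
      intro i a b hab
      obtain ⟨c, hca, hcb⟩ := third a b
      apply hedge
      refine ⟨Function.update D i ![D i a, D i b, D i c], hD0.update i _ (inj3 hab.ne
        (fun h => hca (hD0.inj i h).symm) (fun h => hcb (hD0.inj i h).symm)) ?_, i, ?_⟩
      · intro l hl x y
        refine forall3 (P := fun v => G.Adj v (D l y)) ?_ ?_ ?_ x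
        · exact hD0.adj _ _ _ _ hl.symm
        · exact hD0.adj _ _ _ _ hl.symm
        · exact hD0.adj _ _ _ _ hl.symm
      · rw [Function.update_self]
        exact hab
    have hin0 : ∑ i, ∑ a, aC G D (D i a) i = 0 := by
      apply sum_eq_zero
      intro i _
      apply sum_eq_zero
      intro a _
      exact aC_eq_zero (fun b => hnoinner i a b)
    let x : V → ℕ := fun v => if ∑ i, mC G D v i ≤ 2 then 1 else 0
    have hx : ∀ v, Outside D v → dS G (cset D) v ≤ (3 * p - 3) + x v := by
      intro v hv
      have h2 := dS_add_sum_mC (G := G) hinj hp v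
      by_cases hs : ∑ i, mC G D v i ≤ 2
      · have hx1 : x v = 1 := by simp only [x, hs, if_true]
        have := (noedge_outside hD0 hdom hedge hv hs).1
        omega
      · omega
    have hout := outer_sum_le hinj hp x hx
    have hx1 : ∑ v ∈ (cset D)ᶜ, x v ≤ 1 := by
      simp only [x]
      rw [← card_filter, card_le_one]
      intro a ha b hb
      rw [mem_filter, not_mem_cset] at ha hb
      obtain ⟨ha1, ha2⟩ := noedge_outside hD0 hdom hedge ha.1 ha.2
      obtain ⟨hb1, hb2⟩ := noedge_outside hD0 hdom hedge hb.1 hb.2
      exact noedge_unique hD0 hp hp2 hF ha.1 hb.1 ha1 ha2 hb2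
    refine ⟨cset D, card_cset hinj hp, ?_⟩
    unfold tcount target
    omega

end

end Pool.Agent.GenTuran
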