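import Mathlib.Combinatorics.SimpleGraph.Extremal.ErdosStoneSimonovits
import Mathlib.Combinatorics.SimpleGraph.Extremal.Turan
import Mathlib.Combinatorics.SimpleGraph.CycleGraph
import Mathlib.Tactic

/-!
# The forbidden graph: complement of an even cycle, and how to find it
-/

open SimpleGraph Finset

namespace Pool.Agent.GenTuran

/-- The complement of the cycle of length `2p+2`. -/
def Fgraph (p : ℕ) : SimpleGraph (Fin (2 * p + 2)) := (cycleGraph (2 * p + 2))ᶜ

theorem cycle_adj_iff {p : ℕ} {i j : Fin (2 * p + 2)} (hij : i.val < j.val) :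
    (cycleGraph (2 * p + 2)).Adj i j ↔ (j.val = i.val + 1 ∨ (i.val = 0 ∧ j.val = 2 * p + 1)) := by
  rw [cycleGraph_adj']
  have h1 : (j - i).val = j.val - i.val := Fin.coe_sub_iff_le.mpr hij.le
  have h2 : (i - j).val = (2 * p + 2) + i.val - j.val := Fin.coe_sub_iff_lt.mpr hij
  rw [h1, h2]
  have := i.isLt
  have := j.isLt
  omega

theorem Fgraph_adj_iff {p : ℕ} {i j : Fin (2 * p + 2)} (hij : i.val < j.val) :
    (Fgraph p).Adj i j ↔ (i.val + 2 ≤ j.val ∧ ¬ (i.val = 0 ∧ j.val = 2 * p + 1)) := by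
  unfold Fgraph
  rw [compl_adj, cycle_adj_iff hij]
  have : i ≠ j := by
    rintro rfl
    exact absurd hij (lt_irrefl _)
  constructor
  · rintro ⟨_, h⟩
    omega
  · intro h
    refine ⟨this, ?_⟩
    omega

/-- A sequence of `2p+2` vertices, any two at distance at least two adjacent, gives a copy of the
forbidden graph. -/
theorem contained_of_seq {V : Type*} {G : SimpleGraph V} {p : ℕ} (f : ℕ → V)
    (h2 : ∀ i j, i + 2 ≤ j → j < 2 * p + 2 → G.Adj (f i) (f j))
    (h1 : ∀ i, i + 1 < 2 * p + 2 → f i ≠ f (i + 1)) : Fgraph p ⊑ G := by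
  have key : ∀ i j : Fin (2 * p + 2), i.val < j.val → f i.val ≠ f j.val := by
    intro i j hij
    by_cases h : i.val + 1 = j.val
    · rw [← h]
      apply h1
      rw [h]
      exact j.isLt
    · exact (h2 _ _ (by omega) j.isLt).ne
  refine ⟨⟨⟨fun i => f i.val, ?_⟩, ?_⟩⟩
  · intro i j hij
    rcases lt_trichotomy i.val j.val with h | h | h
    · exact h2 _ _ ((Fgraph_adj_iff h).mp hij).1 j.isLt
    · exact absurd (Fin.ext h) hij.ne
    · exact (h2 _ _ ((Fgraph_adj_iff h).mp hij.symm).1 i.isLt).symm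
  · intro i j hij
    rcases lt_trichotomy i.val j.val with h | h | h
    · exact absurd hij (key _ _ h)
    · exact Fin.ext h
    · exact absurd hij.symm (key _ _ h)

/-- `D` spans a complete multipartite graph with classes of size three. -/
structure IsCopy {V ι : Type*} (G : SimpleGraph V) (D : ι → Fin 3 → V) : Prop where
  adj : ∀ i j a b, i ≠ j → G.Adj (D i a) (D j b)
  inj : ∀ i, Function.Injective (D i)

/-- The universal embedding lemma. -/
theorem embed4 {V ι : Type*} [Fintype ι] [DecidableEq ι] {G : SimpleGraph V} {D : ι → Fin 3 → V}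
    (hD : IsCopy G D) {p : ℕ} (hp : Fintype.card ι = p) (j l0 : ι) (hl0 : l0 ≠ j)
    (s0 s1 s2 s3 : V)
    (h02 : G.Adj s0 s2) (h03 : G.Adj s0 s3) (h13 : G.Adj s1 s3)
    (n01 : s0 ≠ s1) (n12 : s1 ≠ s2) (n23 : s2 ≠ s3)
    (hpair : ∃ a b, a ≠ b ∧ G.Adj s0 (D l0 a) ∧ G.Adj s1 (D l0 a) ∧ G.Adj s2 (D l0 a) ∧
      s3 ≠ D l0 a ∧ G.Adj s0 (D l0 b) ∧ G.Adj s1 (D l0 b) ∧ G.Adj s2 (D l0 b) ∧
      G.Adj s3 (D l0 b))
    (hrest : ∀ l, l ≠ j → l ≠ l0 → ∃ a b, a ≠ b ∧
      (G.Adj s0 (D l a) ∧ G.Adj s1 (D l a) ∧ G.Adj s2 (D l a) ∧ G.Adj s3 (D l a)) ∧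
      (G.Adj s0 (D l b) ∧ G.Adj s1 (D l b) ∧ G.Adj s2 (D l b) ∧ G.Adj s3 (D l b))) :
    Fgraph p ⊑ G := by
  classical
  obtain ⟨a0, b0, hab0, ha0, ha1, ha2, ha3, hb0, hb1, hb2, hb3⟩ := hpair
  have hcard : Fintype.card {l : ι // l ≠ j ∧ l ≠ l0} = p - 2 := by
    rw [Fintype.card_subtype]
    have : (univ.filter fun l : ι => l ≠ j ∧ l ≠ l0) = univ \ {j, l0} := by
      ext l
      simp
    rw [this, card_sdiff_of_subset (subset_univ _), card_univ, hp, card_pair hl0.symm]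
  have hp2 : 2 ≤ p := by
    rw [← hp, ← card_pair hl0.symm]
    exact card_le_univ _
  let e := Fintype.equivFinOfCardEq hcard
  let oth : ℕ → ι := fun t => if h : t < p - 2 then (e.symm ⟨t, h⟩ : ι) else j
  have hothj : ∀ t, t < p - 2 → oth t ≠ j ∧ oth t ≠ l0 := by
    intro t ht
    simp only [oth, ht, dif_pos]
    exact (e.symm ⟨t, ht⟩).2
  have hoth : ∀ t t', t < p - 2 → t' < p - 2 → t ≠ t' → oth t ≠ oth t' := by
    intro t t' ht ht' hne h
    simp only [oth, ht, ht', dif_pos] at h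
    have := e.symm.injective (Subtype.ext h)
    simp only [Fin.mk.injEq] at this
    exact hne this
  choose x y hxy hx hy using fun (t : ℕ) (ht : t < p - 2) =>
    hrest (oth t) (hothj t ht).1 (hothj t ht).2
  let f : ℕ → V := fun n => match n with
    | 0 => s0
    | 1 => s1
    | 2 => s2
    | 3 => s3
    | 4 => D l0 a0
    | 5 => D l0 b0
    | n + 6 => if h : n / 2 < p - 2 then
        (if n % 2 = 0 then D (oth (n / 2)) (x (n / 2) h) else D (oth (n / 2)) (y (n / 2) h))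
        else s0
  have f0 : f 0 = s0 := rfl
  have f1 : f 1 = s1 := rfl
  have f2 : f 2 = s2 := rfl
  have f3 : f 3 = s3 := rfl
  have f4 : f 4 = D l0 a0 := rfl
  have f5 : f 5 = D l0 b0 := rfl
  have f6 : ∀ n, n + 6 < 2 * p + 2 → ∃ c, f (n + 6) = D (oth (n / 2)) c ∧ n / 2 < p - 2 ∧
      G.Adj s0 (D (oth (n / 2)) c) ∧ G.Adj s1 (D (oth (n / 2)) c) ∧
      G.Adj s2 (D (oth (n / 2)) c) ∧ G.Adj s3 (D (oth (n / 2)) c) := by
    intro n hn
    have h : n / 2 < p - 2 := by omega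
    by_cases hpar : n % 2 = 0
    · refine ⟨x (n / 2) h, ?_, h, ?_⟩
      · simp only [f, h, hpar, dif_pos, if_true]
      · exact hx (n / 2) h
    · refine ⟨y (n / 2) h, ?_, h, ?_⟩
      · simp only [f, h, hpar, dif_pos, if_false]
      · exact hy (n / 2) h
  have f6' : ∀ n, n + 7 < 2 * p + 2 → f (n + 6) ≠ f (n + 7) := by
    intro n hn
    by_cases hpar : n % 2 = 0
    · have h : n / 2 < p - 2 := by omega
      have h' : (n + 1) / 2 = n / 2 := by omega
      have hpar' : (n + 1) % 2 ≠ 0 := by omega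
      have e1 : f (n + 6) = D (oth (n / 2)) (x (n / 2) h) := by
        simp only [f, h, hpar, dif_pos, if_true]
      have e2 : f (n + 7) = D (oth (n / 2)) (y (n / 2) h) := by
        change f (n + 1 + 6) = _
        simp only [f, h', h, hpar', dif_pos, if_false]
      rw [e1, e2]
      exact fun hh => hxy (n / 2) h (hD.inj _ hh)
    · obtain ⟨c, hc, hlt, -⟩ := f6 n (by omega)
      obtain ⟨c', hc', hlt', -⟩ := f6 (n + 1) (by omega)
      rw [hc, show n + 7 = n + 1 + 6 by ring, hc']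
      exact (hD.adj _ _ _ _ (hoth _ _ hlt hlt' (by omega))).ne
  refine contained_of_seq f ?_ ?_
  · intro i k hik hk
    match i, k with
    | 0, 2 => rw [f0, f2]; exact h02
    | 0, 3 => rw [f0, f3]; exact h03
    | 0, 4 => rw [f0, f4]; exact ha0
    | 0, 5 => rw [f0, f5]; exact hb0
    | 1, 3 => rw [f1, f3]; exact h13
    | 1, 4 => rw [f1, f4]; exact ha1
    | 1, 5 => rw [f1, f5]; exact hb1
    | 2, 4 => rw [f2, f4]; exact ha2
    | 2, 5 => rw [f2, f5]; exact hb2
    | 3, 5 => rw [f3, f5]; exact hb3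
    | 0, n + 6 =>
      obtain ⟨c, hc, hlt, h⟩ := f6 n hk
      rw [f0, hc]; exact h.1
    | 1, n + 6 =>
      obtain ⟨c, hc, hlt, h⟩ := f6 n hk
      rw [f1, hc]; exact h.2.1
    | 2, n + 6 =>
      obtain ⟨c, hc, hlt, h⟩ := f6 n hk
      rw [f2, hc]; exact h.2.2.1
    | 3, n + 6 =>
      obtain ⟨c, hc, hlt, h⟩ := f6 n hk
      rw [f3, hc]; exact h.2.2.2
    | 4, n + 6 =>
      obtain ⟨c, hc, hlt, h⟩ := f6 n hk
      rw [f4, hc]; exact hD.adj _ _ _ _ (hothj _ hlt).2.symm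
    | 5, n + 6 =>
      obtain ⟨c, hc, hlt, h⟩ := f6 n hk
      rw [f5, hc]; exact hD.adj _ _ _ _ (hothj _ hlt).2.symm
    | m + 6, n + 6 =>
      obtain ⟨c, hc, hlt, h⟩ := f6 n hk
      obtain ⟨c', hc', hlt', h'⟩ := f6 m (by omega)
      rw [hc, hc']
      exact hD.adj _ _ _ _ (hoth _ _ hlt' hlt (by omega))
    | 0, 0 => omega
    | 0, 1 => omega
    | 1, 0 => omega
    | 1, 1 => omega
    | 1, 2 => omega
    | 2, 0 => omega
    | 2, 1 => omega
    | 2, 2 => omega
    | 2, 3 => omega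
    | 3, 0 => omega
    | 3, 1 => omega
    | 3, 2 => omega
    | 3, 3 => omega
    | 3, 4 => omega
    | 4, 0 => omega
    | 4, 1 => omega
    | 4, 2 => omega
    | 4, 3 => omega
    | 4, 4 => omega
    | 4, 5 => omega
    | 5, 0 => omega
    | 5, 1 => omega
    | 5, 2 => omega
    | 5, 3 => omega
    | 5, 4 => omega
    | 5, 5 => omega
    | m + 6, 0 => omega
    | m + 6, 1 => omega
    | m + 6, 2 => omega
    | m + 6, 3 => omega
    | m + 6, 4 => omega
    | m + 6, 5 => omega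
  · intro i hi
    match i with
    | 0 => rw [f0, f1]; exact n01
    | 1 => rw [f1, f2]; exact n12
    | 2 => rw [f2, f3]; exact n23
    | 3 => rw [f3, f4]; exact ha3
    | 4 => rw [f4, f5]; exact fun hh => hab0 (hD.inj _ hh)
    | 5 =>
      obtain ⟨c, hc, hlt, h⟩ := f6 0 (by omega)
      rw [f5, hc]
      exact (hD.adj _ _ _ _ (hothj _ hlt).2.symm).ne
    | n + 6 => exact f6' n hi

end Pool.Agent.GenTuran
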