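import Pool.Agent.GenTuran.Embed

/-!
# Edge version of the Erdős–Stone theorem, from the minimum degree version in Mathlib
-/

open SimpleGraph Finset

namespace Pool.Agent.GenTuran

open scoped Classical

theorem exists_minDegree_subgraph (α : ℝ) (hα : 0 ≤ α) (N0 : ℕ) (hN0 : 1 ≤ N0) :
    ∀ n, ∀ G : SimpleGraph (Fin n),
      α * n * (n + 1) / 2 + (N0 : ℝ) ^ 2 ≤ (G.edgeFinset.card : ℝ) →
      ∃ n', N0 ≤ n' ∧ ∃ G' : SimpleGraph (Fin n'), G' ⊑ G ∧ α * n' ≤ (G'.minDegree : ℝ) := by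
  intro n
  induction n with
  | zero =>
    intro G hG
    exfalso
    have h1 : G.edgeFinset.card ≤ (Fintype.card (Fin 0)).choose 2 :=
      G.card_edgeFinset_le_card_choose_two
    have h2 : G.edgeFinset.card = 0 := by
      simpa using h1
    rw [h2] at hG
    have h3 : (1 : ℝ) ≤ N0 := by exact_mod_cast hN0
    norm_num at hG
    nlinarith
  | succ n ih =>
    intro G hG
    by_cases hn : n + 1 < N0
    · exfalso
      have h1 : G.edgeFinset.card ≤ (Fintype.card (Fin (n + 1))).choose 2 :=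
        G.card_edgeFinset_le_card_choose_two
      rw [Fintype.card_fin] at h1
      have h2 : (n + 1).choose 2 ≤ (n + 1) ^ 2 := by
        rw [Nat.choose_two_right]
        calc (n + 1) * (n + 1 - 1) / 2 ≤ (n + 1) * (n + 1 - 1) := Nat.div_le_self _ _
          _ ≤ (n + 1) ^ 2 := by
            rw [sq]
            exact Nat.mul_le_mul_left _ (Nat.sub_le _ _)
      have h3 : (G.edgeFinset.card : ℝ) ≤ ((n : ℝ) + 1) ^ 2 := by exact_mod_cast h1.trans h2
      have h4 : (n : ℝ) + 1 < N0 := by exact_mod_cast hn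
      have h5 : (0 : ℝ) ≤ n := Nat.cast_nonneg n
      have h6 : 0 ≤ α * ((n + 1 : ℕ) : ℝ) * (((n + 1 : ℕ) : ℝ) + 1) / 2 := by positivity
      nlinarith
    · push Not at hn
      by_cases hmin : α * ((n + 1 : ℕ) : ℝ) ≤ (G.minDegree : ℝ)
      · exact ⟨n + 1, hn, G, IsContained.refl G, hmin⟩
      · push Not at hmin
        obtain ⟨v, hv⟩ := G.exists_minimal_degree_vertex
        have hcard : Fintype.card ({v}ᶜ : Set (Fin (n + 1))) = n := by
          rw [Fintype.card_compl_set]
          simp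
        let G1 := G.induce ({v}ᶜ : Set (Fin (n + 1)))
        let G2 : SimpleGraph (Fin n) := G1.overFin hcard
        have e12 : G1 ≃g G2 := G1.overFinIso hcard
        have hedges : G2.edgeFinset.card = G.edgeFinset.card - G.degree v := by
          have h1 : G1.edgeFinset.card = G.edgeFinset.card - G.degree v := by
            rw [← card_edgeFinset_deleteIncidenceSet, ← card_edgeFinset_induce_compl_singleton]
          rw [← h1]
          exact (Iso.card_edgeFinset_eq e12).symm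
        have hle : G.degree v ≤ G.edgeFinset.card := by
          rw [← card_incidenceFinset_eq_degree]
          exact card_le_card (G.incidenceFinset_subset v)
        have hG2 : α * n * (n + 1) / 2 + (N0 : ℝ) ^ 2 ≤ (G2.edgeFinset.card : ℝ) := by
          rw [hedges, Nat.cast_sub hle, ← hv]
          push_cast at hG hmin
          nlinarith
        obtain ⟨n', hn', G', hG', hmin'⟩ := ih G2 hG2
        refine ⟨n', hn', G', ?_, hmin'⟩
        exact (hG'.trans ⟨e12.symm.toCopy⟩).trans ⟨Copy.induce G _⟩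

/-- Edge version of Erdős–Stone: for large `q`, a graph on `pq+1` vertices with at least as many
edges as the balanced complete `p`-partite graph contains `K_p(3)`. -/
theorem exists_copy (p : ℕ) (hp2 : 2 ≤ p) : ∃ q0 : ℕ, ∀ q, q0 ≤ q →
    ∀ G : SimpleGraph (Fin (p * q + 1)), p * (p - 1) * q ^ 2 ≤ 2 * G.edgeFinset.card →
      ∃ D : Fin p → Fin 3 → Fin (p * q + 1), IsCopy G D := by
  -- r = p - 1
  obtain ⟨r, rfl⟩ : ∃ r, p = r + 1 := ⟨p - 1, by omega⟩
  have hr : 1 ≤ r := by omega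
  have hr0 : (0 : ℝ) < r := by exact_mod_cast hr
  set ε : ℝ := 1 / (2 * r * (r + 1)) with hε
  have hεpos : 0 < ε := by positivity
  obtain ⟨N1, hN1⟩ := Filter.eventually_atTop.mp
    (eventually_completeEquipartiteGraph_isContained_of_minDegree hεpos r 3)
  set N0 := N1 + 1 with hN0
  set α : ℝ := 1 - 1 / r + ε with hα
  have hα0 : 0 ≤ α := by
    have : (1 : ℝ) / r ≤ 1 := by
      rw [div_le_one hr0]
      exact_mod_cast hr
    linarith
  have hαlt : α < 1 - 1 / (r + 1) := by
    have h1 : (1 : ℝ) / r - 1 / (r + 1) = 1 / (r * (r + 1)) := by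
      field_simp
      ring
    have h2 : ε = (1 / (r * (r + 1))) / 2 := by
      rw [hε]
      field_simp
    have h3 : (0 : ℝ) < 1 / (r * (r + 1)) := by positivity
    rw [hα]
    linarith
  -- choose q0
  have hβ : (r : ℝ) / (r + 1) = 1 - 1 / (r + 1) := by
    field_simp
    ring
  set γ : ℝ := (1 - 1 / (r + 1)) - α with hγ
  have hγ0 : 0 < γ := by linarith
  obtain ⟨q0, hq0⟩ := exists_nat_gt (max 1 ((2 * (N0 : ℝ) ^ 2 + 6) / γ))
  refine ⟨q0, fun q hq G hG => ?_⟩
  have hq1 : (1 : ℝ) < q := by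
    have : (q0 : ℝ) ≤ q := by exact_mod_cast hq
    exact lt_of_lt_of_le (lt_of_le_of_lt (le_max_left _ _) hq0) this
  have hq2 : (2 * (N0 : ℝ) ^ 2 + 6) / γ < q := by
    have : (q0 : ℝ) ≤ q := by exact_mod_cast hq
    exact lt_of_lt_of_le (lt_of_le_of_lt (le_max_right _ _) hq0) this
  rw [div_lt_iff₀ hγ0] at hq2
  have hG' : ((r : ℝ) + 1) * r * q ^ 2 ≤ 2 * (G.edgeFinset.card : ℝ) := by
    have := hG
    simp only [Nat.add_sub_cancel] at this
    exact_mod_cast this
  have hmain : α * ((r + 1) * q + 1 : ℕ) * (((r + 1) * q + 1 : ℕ) + 1) / 2 + (N0 : ℝ) ^ 2 ≤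
      (G.edgeFinset.card : ℝ) := by
    push_cast
    -- (r+1) r q^2 = (1 - 1/(r+1)) ((r+1) q)^2
    have h1 : ((r : ℝ) + 1) * r * q ^ 2 = (1 - 1 / (r + 1)) * ((r + 1) * q) ^ 2 := by
      field_simp
      ring
    have hα1 : α ≤ 1 := by
      have : (0 : ℝ) < 1 / (r + 1) := by positivity
      linarith
    set m : ℝ := (r + 1) * q with hm
    have hmq : (q : ℝ) ≤ m := by
      rw [hm]
      nlinarith
    have hm1 : 1 < m := lt_of_lt_of_le hq1 hmq
    have h2 : α * (m + 1) * (m + 1 + 1) = α * m ^ 2 + α * (3 * m + 2) := by ring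
    have h3 : α * (3 * m + 2) ≤ 3 * m + 2 := by nlinarith
    have h4 : γ * m ^ 2 = (1 - 1 / (r + 1)) * m ^ 2 - α * m ^ 2 := by
      rw [hγ]
      ring
    have h5 : (2 * (N0 : ℝ) ^ 2 + 6) * m ≤ γ * m ^ 2 := by
      have : 2 * (N0 : ℝ) ^ 2 + 6 ≤ γ * m := by nlinarith
      nlinarith
    have h6 : 2 * (N0 : ℝ) ^ 2 ≤ 2 * (N0 : ℝ) ^ 2 * m := by nlinarith [sq_nonneg (N0 : ℝ)]
    rw [h1] at hG'
    rw [h2]
    have h7 : (2 * (N0 : ℝ) ^ 2 + 6) * m = 2 * (N0 : ℝ) ^ 2 * m + 6 * m := by ring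
    clear_value m γ α ε
    linarith
  obtain ⟨n', hn', G', hcont, hmin⟩ := exists_minDegree_subgraph α hα0 N0 (by omega) _ G hmain
  have hK := hN1 n' (by omega) (G := G') hmin
  obtain ⟨f⟩ := hK.trans hcont
  refine ⟨fun i a => f (i, a), ?_, ?_⟩
  · intro i j a b hij
    apply f.toHom.map_adj
    simpa [completeEquipartiteGraph_adj] using hij
  · intro i a b hab
    have := f.injective hab
    simpa using this

end Pool.Agent.GenTuran
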