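import Pool.Agent.GenTuran.Embed

/-!
# Local analysis around a complete multipartite graph with classes of size three
-/

open SimpleGraph Finset

namespace Pool.Agent.GenTuran

open scoped Classical

set_option linter.unusedSectionVars false

section

variable {V ι : Type*} [Fintype ι] {G : SimpleGraph V} {D : ι → Fin 3 → V}

/-- number of neighbours of `u` in class `i` -/
noncomputable def aC (G : SimpleGraph V) (D : ι → Fin 3 → V) (u : V) (i : ι) : ℕ :=
  (univ.filter fun a : Fin 3 => G.Adj u (D i a)).card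

/-- number of non-neighbours of `u` in class `i` -/
noncomputable def mC (G : SimpleGraph V) (D : ι → Fin 3 → V) (u : V) (i : ι) : ℕ :=
  (univ.filter fun a : Fin 3 => ¬ G.Adj u (D i a)).card

theorem aC_add_mC (u : V) (i : ι) : aC G D u i + mC G D u i = 3 := by
  unfold aC mC
  rw [card_filter_add_card_filter_not]
  simp

theorem third (a b : Fin 3) : ∃ c, c ≠ a ∧ c ≠ b := by
  revert a b
  decide

theorem fin3_cases {a b c : Fin 3} (hab : a ≠ b) (hac : a ≠ c) (hbc : b ≠ c) (x : Fin 3) :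
    x = a ∨ x = b ∨ x = c := by
  revert a b c x
  decide

theorem two_le_aC {u : V} {i : ι} (h : 2 ≤ aC G D u i) :
    ∃ a b, a ≠ b ∧ G.Adj u (D i a) ∧ G.Adj u (D i b) := by
  obtain ⟨a, ha, b, hb, hab⟩ := Finset.one_lt_card.mp h
  simp only [mem_filter, mem_univ, true_and] at ha hb
  exact ⟨a, b, hab, ha, hb⟩

theorem one_le_aC {u : V} {i : ι} (h : 1 ≤ aC G D u i) : ∃ a, G.Adj u (D i a) := by
  obtain ⟨a, ha⟩ := Finset.card_pos.mp h
  simp only [mem_filter, mem_univ, true_and] at ha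
  exact ⟨a, ha⟩

theorem one_le_aC' {u : V} {i : ι} (h : 1 ≤ aC G D u i) :
    ∃ a b, a ≠ b ∧ G.Adj u (D i b) := by
  obtain ⟨a, ha⟩ := one_le_aC h
  obtain ⟨b, hb, -⟩ := third a a
  exact ⟨b, a, hb, ha⟩

theorem mC_eq_zero {u : V} {i : ι} (h : mC G D u i = 0) (a : Fin 3) : G.Adj u (D i a) := by
  unfold mC at h
  rw [card_eq_zero, filter_eq_empty_iff] at h
  have := h (mem_univ a)
  simpa using this

theorem mC_eq_zero_iff {u : V} {i : ι} : mC G D u i = 0 ↔ ∀ a : Fin 3, G.Adj u (D i a) := by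
  refine ⟨mC_eq_zero, fun h => ?_⟩
  unfold mC
  rw [card_eq_zero, filter_eq_empty_iff]
  intro a _
  simpa using h a

theorem mC_eq_three {u : V} {i : ι} (h : mC G D u i = 3) (a : Fin 3) : ¬ G.Adj u (D i a) := by
  have h2 := aC_add_mC (G := G) (D := D) u i
  have h3 : aC G D u i = 0 := by omega
  unfold aC at h3
  rw [card_eq_zero, filter_eq_empty_iff] at h3
  exact h3 (mem_univ a)

theorem mC_le_one {u : V} {i : ι} (h : mC G D u i ≤ 1) :
    ∃ a b, a ≠ b ∧ G.Adj u (D i a) ∧ G.Adj u (D i b) := by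
  apply two_le_aC
  have h2 := aC_add_mC (G := G) (D := D) u i
  omega

theorem mC_le_two {u : V} {i : ι} (h : mC G D u i ≤ 2) : ∃ a b, a ≠ b ∧ G.Adj u (D i b) := by
  apply one_le_aC'
  have h2 := aC_add_mC (G := G) (D := D) u i
  omega

/-- if `u` misses at most one vertex of the class, then it is adjacent to all except possibly one -/
theorem mC_le_one' {u : V} {i : ι} (h : mC G D u i ≤ 1) {a b : Fin 3} (hab : a ≠ b)
    (ha : ¬ G.Adj u (D i a)) : G.Adj u (D i b) := by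
  by_contra hb
  have : ({a, b} : Finset (Fin 3)) ⊆ univ.filter fun a : Fin 3 => ¬ G.Adj u (D i a) := by
    intro x hx
    simp only [mem_insert, mem_singleton] at hx
    simp only [mem_filter, mem_univ, true_and]
    rcases hx with rfl | rfl <;> assumption
  have := card_le_card this
  rw [card_pair hab] at this
  unfold mC at h
  omega

theorem sum_two_le {f : ι → ℕ} {i j : ι} (hij : i ≠ j) : f i + f j ≤ ∑ l, f l := by
  rw [← sum_pair hij]
  exact sum_le_sum_of_subset (subset_univ _)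

theorem sum_one_le {f : ι → ℕ} (i : ι) : f i ≤ ∑ l, f l :=
  single_le_sum (f := f) (fun _ _ => Nat.zero_le _) (mem_univ i)

theorem sum_three_le {f : ι → ℕ} {i j k : ι} (hij : i ≠ j) (hik : i ≠ k) (hjk : j ≠ k) :
    f i + f j + f k ≤ ∑ l, f l := by
  have : ∑ l ∈ ({i, j, k} : Finset ι), f l = f i + f j + f k := by
    rw [sum_insert (by simp [hij, hik]), sum_pair hjk, add_assoc]
  rw [← this]
  exact sum_le_sum_of_subset (subset_univ _)

/-- A vertex outside the copy. -/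
def Outside (D : ι → Fin 3 → V) (u : V) : Prop := ∀ i a, D i a ≠ u

variable {p : ℕ}

/-- Two classes cannot both have inner edges. -/
theorem two_inner (hD : IsCopy G D) (hp : Fintype.card ι = p) (hF : ¬ Fgraph p ⊑ G)
    {i j : ι} (hij : i ≠ j) {a b : Fin 3} (hab : G.Adj (D i a) (D i b)) (c d : Fin 3) :
    ¬ G.Adj (D j c) (D j d) := by
  intro hcd
  apply hF
  obtain ⟨e, hea, heb⟩ := third a b
  obtain ⟨f, hfc, hfd⟩ := third c d
  refine embed4 hD hp i j hij.symm (D i a) (D i e) (D i b) (D j c) hab (hD.adj _ _ _ _ hij)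
    (hD.adj _ _ _ _ hij) (fun h => hea (hD.inj i h).symm) (fun h => heb (hD.inj i h))
    (hD.adj _ _ _ _ hij).ne ⟨f, d, hfd, hD.adj _ _ _ _ hij, hD.adj _ _ _ _ hij,
      hD.adj _ _ _ _ hij, fun h => hfc (hD.inj j h).symm, hD.adj _ _ _ _ hij,
      hD.adj _ _ _ _ hij, hD.adj _ _ _ _ hij, hcd⟩ ?_
  intro l hl hl'
  exact ⟨0, 1, by decide, ⟨hD.adj _ _ _ _ hl.symm, hD.adj _ _ _ _ hl.symm,
    hD.adj _ _ _ _ hl.symm, hD.adj _ _ _ _ hl'.symm⟩, ⟨hD.adj _ _ _ _ hl.symm,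
    hD.adj _ _ _ _ hl.symm, hD.adj _ _ _ _ hl.symm, hD.adj _ _ _ _ hl'.symm⟩⟩

/-- there are at least two classes -/
theorem exists_other (hp : Fintype.card ι = p) (hp2 : 2 ≤ p) (j : ι) : ∃ l : ι, l ≠ j := by
  have : Nontrivial ι := Fintype.one_lt_card_iff_nontrivial.mp (by omega)
  exact exists_ne j

/-- Version of the embedding lemma without a special second class. -/
theorem embed_plain (hD : IsCopy G D) (hp : Fintype.card ι = p) (hp2 : 2 ≤ p) (j : ι)
    (s0 s1 s2 s3 : V)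
    (h02 : G.Adj s0 s2) (h03 : G.Adj s0 s3) (h13 : G.Adj s1 s3)
    (n01 : s0 ≠ s1) (n12 : s1 ≠ s2) (n23 : s2 ≠ s3)
    (hrest : ∀ l, l ≠ j → ∃ a b, a ≠ b ∧
      (G.Adj s0 (D l a) ∧ G.Adj s1 (D l a) ∧ G.Adj s2 (D l a) ∧ G.Adj s3 (D l a)) ∧
      (G.Adj s0 (D l b) ∧ G.Adj s1 (D l b) ∧ G.Adj s2 (D l b) ∧ G.Adj s3 (D l b))) :
    Fgraph p ⊑ G := by
  obtain ⟨l0, hl0⟩ := exists_other hp hp2 j
  obtain ⟨a, b, hab, ⟨h0, h1, h2, h3⟩, ⟨h0', h1', h2', h3'⟩⟩ := hrest l0 hl0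
  exact embed4 hD hp j l0 hl0 s0 s1 s2 s3 h02 h03 h13 n01 n12 n23
    ⟨a, b, hab, h0, h1, h2, h3.ne, h0', h1', h2', h3'⟩ (fun l hl _ => hrest l hl)

/-- In the presence of a dominating vertex there are no inner edges. -/
theorem dom_no_inner (hD : IsCopy G D) (hp : Fintype.card ι = p) (hp2 : 2 ≤ p)
    (hF : ¬ Fgraph p ⊑ G) {w : V} (hw : ∀ i a, G.Adj w (D i a)) (j : ι) (a b : Fin 3) :
    ¬ G.Adj (D j a) (D j b) := by
  intro hab
  apply hF
  obtain ⟨c, hca, hcb⟩ := third a b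
  refine embed_plain hD hp hp2 j (D j a) (D j c) (D j b) w hab (hw _ _).symm (hw _ _).symm
    (fun h => hca (hD.inj j h).symm) (fun h => hcb (hD.inj j h)) (hw _ _).ne.symm ?_
  intro l hl
  exact ⟨0, 1, by decide, ⟨hD.adj _ _ _ _ hl.symm, hD.adj _ _ _ _ hl.symm,
    hD.adj _ _ _ _ hl.symm, hw _ _⟩, ⟨hD.adj _ _ _ _ hl.symm,
    hD.adj _ _ _ _ hl.symm, hD.adj _ _ _ _ hl.symm, hw _ _⟩⟩

/-- In the presence of a dominating vertex, other outside vertices miss three vertices, and if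
they miss exactly three then they miss a whole class. -/
theorem dom_outside (hD : IsCopy G D) (hp : Fintype.card ι = p) (hp2 : 2 ≤ p)
    (hF : ¬ Fgraph p ⊑ G) {w : V} (hw : ∀ i a, G.Adj w (D i a)) {u : V} (hu : Outside D u)
    (huw : u ≠ w) (hsum : ∑ i, mC G D u i ≤ 3) : ∃ i, mC G D u i = 3 := by
  by_contra hno
  push Not at hno
  apply hF
  have hle : ∀ i, mC G D u i ≤ 2 := by
    intro i
    have h1 := aC_add_mC (G := G) (D := D) u i
    have h2 := hno i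
    omega
  have hj : ∃ j, ∀ l, l ≠ j → mC G D u l ≤ 1 := by
    by_cases h : ∃ j, mC G D u j = 2
    · obtain ⟨j, hj⟩ := h
      refine ⟨j, fun l hl => ?_⟩
      have := sum_two_le (f := mC G D u) hl
      omega
    · push Not at h
      have : Nonempty ι := Fintype.card_pos_iff.mp (by omega)
      obtain ⟨j⟩ := this
      refine ⟨j, fun l hl => ?_⟩
      have := h l
      have := hle l
      omega
  obtain ⟨j, hj⟩ := hj
  obtain ⟨c, b, hcb, hb⟩ := mC_le_two (hle j)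
  refine embed_plain hD hp hp2 j (D j b) (D j c) u w hb.symm (hw _ _).symm (hw _ _).symm
    (fun h => hcb (hD.inj j h).symm) (hu j c) huw ?_
  intro l hl
  obtain ⟨x, y, hxy, hx, hy⟩ := mC_le_one (hj l hl)
  exact ⟨x, y, hxy, ⟨hD.adj _ _ _ _ hl.symm, hD.adj _ _ _ _ hl.symm, hx, hw _ _⟩,
    ⟨hD.adj _ _ _ _ hl.symm, hD.adj _ _ _ _ hl.symm, hy, hw _ _⟩⟩

/-- A triangle class. -/
theorem tri_outside (hD : IsCopy G D) (hp : Fintype.card ι = p) (hp2 : 2 ≤ p)
    (hF : ¬ Fgraph p ⊑ G) {j0 : ι} (htri : ∀ a b, a ≠ b → G.Adj (D j0 a) (D j0 b))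
    {u : V} (hu : Outside D u) (hsum : ∑ i, mC G D u i ≤ 3) : ∃ i, mC G D u i = 3 := by
  by_contra hno
  push Not at hno
  apply hF
  have hle : ∀ i, mC G D u i ≤ 2 := by
    intro i
    have h1 := aC_add_mC (G := G) (D := D) u i
    have h2 := hno i
    omega
  by_cases h : ∃ l0, l0 ≠ j0 ∧ mC G D u l0 = 2
  · obtain ⟨l0, hl0, hm⟩ := h
    have h1 : mC G D u j0 ≤ 1 := by
      have := sum_two_le (f := mC G D u) hl0
      omega
    obtain ⟨a, b, hab, ha, hb⟩ := mC_le_one h1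
    obtain ⟨c, hca, hcb⟩ := third a b
    obtain ⟨x, y, hxy, hy⟩ := mC_le_two (hle l0)
    refine embed4 hD hp j0 l0 hl0 (D j0 a) (D j0 b) (D j0 c) u (htri _ _ hca.symm) ha.symm
      hb.symm (fun h => hab (hD.inj j0 h)) (fun h => hcb (hD.inj j0 h).symm) (hu _ _)
      ⟨x, y, hxy, hD.adj _ _ _ _ hl0.symm, hD.adj _ _ _ _ hl0.symm, hD.adj _ _ _ _ hl0.symm,
        (hu _ _).symm, hD.adj _ _ _ _ hl0.symm, hD.adj _ _ _ _ hl0.symm,
        hD.adj _ _ _ _ hl0.symm, hy⟩ ?_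
    intro l hl hl'
    have : mC G D u l ≤ 1 := by
      have := sum_two_le (f := mC G D u) hl'
      omega
    obtain ⟨x, y, hxy, hx, hy⟩ := mC_le_one this
    exact ⟨x, y, hxy, ⟨hD.adj _ _ _ _ hl.symm, hD.adj _ _ _ _ hl.symm,
      hD.adj _ _ _ _ hl.symm, hx⟩, ⟨hD.adj _ _ _ _ hl.symm, hD.adj _ _ _ _ hl.symm,
      hD.adj _ _ _ _ hl.symm, hy⟩⟩
  · push Not at h
    obtain ⟨a, b, hab, hb⟩ := mC_le_two (hle j0)
    obtain ⟨c, hca, hcb⟩ := third a b
    refine embed_plain hD hp hp2 j0 (D j0 a) u (D j0 c) (D j0 b) (htri _ _ hca.symm)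
      (htri _ _ hab) hb (hu _ _) (hu _ _).symm (fun h => hcb (hD.inj j0 h)) ?_
    intro l hl
    have : mC G D u l ≤ 1 := by
      have := hle l
      have := h l hl
      omega
    obtain ⟨x, y, hxy, hx, hy⟩ := mC_le_one this
    exact ⟨x, y, hxy, ⟨hD.adj _ _ _ _ hl.symm, hx, hD.adj _ _ _ _ hl.symm,
      hD.adj _ _ _ _ hl.symm⟩, ⟨hD.adj _ _ _ _ hl.symm, hy, hD.adj _ _ _ _ hl.symm,
      hD.adj _ _ _ _ hl.symm⟩⟩

end

end Pool.Agent.GenTuran
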