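import Pool.Agent.GenTuran.Local

/-!
# Local analysis when there is no dominating vertex and no triangle class
-/

open SimpleGraph Finset

namespace Pool.Agent.GenTuran

open scoped Classical

set_option linter.unusedSectionVars false

section

variable {V ι : Type*} [Fintype ι] {G : SimpleGraph V} {D : ι → Fin 3 → V}

/-- there is a copy with a dominating vertex -/
def HasDom (ι : Type*) (G : SimpleGraph V) : Prop :=
  ∃ D : ι → Fin 3 → V, IsCopy G D ∧ ∃ w, ∀ i a, G.Adj w (D i a)

/-- there is a copy with a triangle class -/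
def HasTri (ι : Type*) (G : SimpleGraph V) : Prop :=
  ∃ D : ι → Fin 3 → V, IsCopy G D ∧ ∃ j, ∀ a b, a ≠ b → G.Adj (D j a) (D j b)

/-- there is a copy with a path in a class -/
def HasPath (ι : Type*) (G : SimpleGraph V) : Prop :=
  ∃ D : ι → Fin 3 → V, IsCopy G D ∧ ∃ j, G.Adj (D j 0) (D j 1) ∧ G.Adj (D j 1) (D j 2)

/-- there is a copy with an edge in a class -/
def HasEdge (ι : Type*) (G : SimpleGraph V) : Prop :=
  ∃ D : ι → Fin 3 → V, IsCopy G D ∧ ∃ j, G.Adj (D j 0) (D j 1)

theorem IsCopy.update (hD : IsCopy G D) (j : ι) (x : Fin 3 → V) (hx : Function.Injective x)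
    (h : ∀ l, l ≠ j → ∀ a b, G.Adj (x a) (D l b)) : IsCopy G (Function.update D j x) := by
  constructor
  · intro i k a b hik
    by_cases hi : i = j
    · subst hi
      rw [Function.update_self, Function.update_of_ne hik.symm]
      exact h k hik.symm a b
    · rw [Function.update_of_ne hi]
      by_cases hk : k = j
      · subst hk
        rw [Function.update_self]
        exact (h i hi b a).symm
      · rw [Function.update_of_ne hk]
        exact hD.adj _ _ _ _ hik
  · intro i
    by_cases hi : i = j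
    · subst hi
      rw [Function.update_self]
      exact hx
    · rw [Function.update_of_ne hi]
      exact hD.inj i

theorem inj3 {x y z : V} (hxy : x ≠ y) (hxz : x ≠ z) (hyz : y ≠ z) :
    Function.Injective ![x, y, z] := by
  intro a b hab
  fin_cases a <;> fin_cases b <;> simp_all

theorem forall3 {P : V → Prop} {x y z : V} (hx : P x) (hy : P y) (hz : P z) :
    ∀ a, P (![x, y, z] a) := by
  intro a
  fin_cases a
  · exact hx
  · exact hy
  · exact hz

variable {p : ℕ}

/-- In the path case every outside vertex misses at least three vertices. -/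
theorem path_outside (hD : IsCopy G D) (hp : Fintype.card ι = p) (hp2 : 2 ≤ p)
    (hF : ¬ Fgraph p ⊑ G) (hdom : ¬ HasDom ι G) {j : ι} (h01 : G.Adj (D j 0) (D j 1))
    (h12 : G.Adj (D j 1) (D j 2)) {u : V} (hu : Outside D u) : 3 ≤ ∑ i, mC G D u i := by
  by_contra hsum
  push Not at hsum
  have i02 : D j 0 ≠ D j 2 := fun h => absurd (hD.inj j h) (by decide)
  by_cases h : ∃ l0, l0 ≠ j ∧ mC G D u l0 = 2
  · obtain ⟨l0, hl0, hm⟩ := h
    have hj0 : mC G D u j = 0 := by
      have := sum_two_le (f := mC G D u) hl0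
      omega
    have hj := mC_eq_zero hj0
    obtain ⟨x, y, hxy, hy⟩ := mC_le_two (u := u) (i := l0) (G := G) (D := D) (by omega)
    apply hF
    refine embed4 hD hp j l0 hl0 (D j 0) (D j 2) (D j 1) u h01 (hj 0).symm (hj 2).symm i02
      h12.ne.symm (hu _ _)
      ⟨x, y, hxy, hD.adj _ _ _ _ hl0.symm, hD.adj _ _ _ _ hl0.symm, hD.adj _ _ _ _ hl0.symm,
        (hu _ _).symm, hD.adj _ _ _ _ hl0.symm, hD.adj _ _ _ _ hl0.symm,
        hD.adj _ _ _ _ hl0.symm, hy⟩ ?_
    intro l hl hl'
    have : mC G D u l ≤ 1 := by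
      have := sum_two_le (f := mC G D u) hl'
      omega
    obtain ⟨x, y, hxy, hx, hy⟩ := mC_le_one this
    exact ⟨x, y, hxy, ⟨hD.adj _ _ _ _ hl.symm, hD.adj _ _ _ _ hl.symm,
      hD.adj _ _ _ _ hl.symm, hx⟩, ⟨hD.adj _ _ _ _ hl.symm, hD.adj _ _ _ _ hl.symm,
      hD.adj _ _ _ _ hl.symm, hy⟩⟩
  · push Not at h
    have hoth : ∀ l, l ≠ j → ∃ a b, a ≠ b ∧ G.Adj u (D l a) ∧ G.Adj u (D l b) := by
      intro l hl
      apply mC_le_one
      have h1 := h l hl
      have h2 := sum_one_le (f := mC G D u) l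
      omega
    by_cases hu2 : G.Adj u (D j 2)
    · apply hF
      refine embed_plain hD hp hp2 j (D j 2) (D j 0) u (D j 1) hu2.symm h12.symm h01
        i02.symm (hu _ _) (hu _ _).symm ?_
      intro l hl
      obtain ⟨x, y, hxy, hx, hy⟩ := hoth l hl
      exact ⟨x, y, hxy, ⟨hD.adj _ _ _ _ hl.symm, hD.adj _ _ _ _ hl.symm, hx,
        hD.adj _ _ _ _ hl.symm⟩, ⟨hD.adj _ _ _ _ hl.symm, hD.adj _ _ _ _ hl.symm, hy,
        hD.adj _ _ _ _ hl.symm⟩⟩
    by_cases hu0 : G.Adj u (D j 0)
    · apply hF
      refine embed_plain hD hp hp2 j (D j 0) (D j 2) u (D j 1) hu0.symm h01 h12.symm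
        i02 (hu _ _) (hu _ _).symm ?_
      intro l hl
      obtain ⟨x, y, hxy, hx, hy⟩ := hoth l hl
      exact ⟨x, y, hxy, ⟨hD.adj _ _ _ _ hl.symm, hD.adj _ _ _ _ hl.symm, hx,
        hD.adj _ _ _ _ hl.symm⟩, ⟨hD.adj _ _ _ _ hl.symm, hD.adj _ _ _ _ hl.symm, hy,
        hD.adj _ _ _ _ hl.symm⟩⟩
    have hm2 : 2 ≤ mC G D u j := by
      have : ({0, 2} : Finset (Fin 3)) ⊆ univ.filter fun a : Fin 3 => ¬ G.Adj u (D j a) := by
        intro x hx
        simp only [mem_insert, mem_singleton] at hx
        simp only [mem_filter, mem_univ, true_and]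
        rcases hx with rfl | rfl <;> assumption
      have := card_le_card this
      rw [card_pair (by decide)] at this
      exact this
    have hu1 : G.Adj u (D j 1) := by
      by_contra hu1
      have : mC G D u j = 3 := by
        unfold mC
        rw [filter_true_of_mem]
        · simp
        · intro a _
          fin_cases a <;> assumption
      have h2 := sum_one_le (f := mC G D u) j
      omega
    have hzero : ∀ l, l ≠ j → ∀ a, G.Adj u (D l a) := by
      intro l hl
      apply mC_eq_zero
      have := sum_two_le (f := mC G D u) hl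
      omega
    apply hdom
    refine ⟨Function.update D j ![D j 0, u, D j 2], hD.update j _ (inj3 (hu _ _) i02 (hu _ _).symm)
      ?_, D j 1, ?_⟩
    · intro l hl a b
      refine forall3 (P := fun v => G.Adj v (D l b)) ?_ ?_ ?_ a
      · exact hD.adj _ _ _ _ hl.symm
      · exact hzero l hl b
      · exact hD.adj _ _ _ _ hl.symm
    · intro i a
      by_cases hi : i = j
      · subst hi
        rw [Function.update_self]
        exact forall3 (P := fun v => G.Adj (D i 1) v) h01.symm hu1.symm h12 a
      · rw [Function.update_of_ne hi]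
        exact hD.adj _ _ _ _ (Ne.symm hi)

theorem mC_ge_two {u : V} {j : ι} {a b : Fin 3} (hab : a ≠ b) (ha : ¬ G.Adj u (D j a))
    (hb : ¬ G.Adj u (D j b)) : 2 ≤ mC G D u j := by
  have : ({a, b} : Finset (Fin 3)) ⊆ univ.filter fun a : Fin 3 => ¬ G.Adj u (D j a) := by
    intro x hx
    simp only [mem_insert, mem_singleton] at hx
    simp only [mem_filter, mem_univ, true_and]
    rcases hx with rfl | rfl <;> assumption
  have := card_le_card this
  rw [card_pair hab] at this
  exact this

theorem mC_ge_one {u : V} {j : ι} {a : Fin 3} (ha : ¬ G.Adj u (D j a)) : 1 ≤ mC G D u j := by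
  apply Finset.card_pos.mpr
  exact ⟨a, by simpa using ha⟩

theorem mC_three {u : V} {j : ι} (ha : ∀ a, ¬ G.Adj u (D j a)) : mC G D u j = 3 := by
  unfold mC
  rw [filter_true_of_mem]
  · simp
  · intro a _
    exact ha a

/-- The two kinds of exceptional vertices in the one-edge case. -/
theorem edge_outside (hD : IsCopy G D) (hp : Fintype.card ι = p) (hp2 : 2 ≤ p)
    (hF : ¬ Fgraph p ⊑ G) (htri : ¬ HasTri ι G) (hpath : ¬ HasPath ι G)
    {j : ι} (h01 : G.Adj (D j 0) (D j 1)) {u : V} (hu : Outside D u)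
    (hsum : ∑ i, mC G D u i ≤ 2) :
    (G.Adj u (D j 2) ∧ ∑ i, mC G D u i = 2 ∧ ∀ l, l ≠ j → ∀ a, G.Adj u (D l a)) ∨
    (G.Adj u (D j 0) ∧ G.Adj u (D j 1) ∧ ∃ l0 c, l0 ≠ j ∧ ¬ G.Adj u (D l0 c) ∧
      ∀ l a, l ≠ j → (l ≠ l0 ∨ a ≠ c) → G.Adj u (D l a)) := by
  have i02 : D j 0 ≠ D j 2 := fun h => absurd (hD.inj j h) (by decide)
  have i12 : D j 1 ≠ D j 2 := fun h => absurd (hD.inj j h) (by decide)
  by_cases h : ∃ l0, l0 ≠ j ∧ mC G D u l0 = 2
  · exfalso
    obtain ⟨l0, hl0, hm⟩ := h
    have hj0 : mC G D u j = 0 := by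
      have := sum_two_le (f := mC G D u) hl0
      omega
    have hj := mC_eq_zero hj0
    obtain ⟨x, y, hxy, hy⟩ := mC_le_two (u := u) (i := l0) (G := G) (D := D) (by omega)
    apply hF
    refine embed4 hD hp j l0 hl0 (D j 0) (D j 2) (D j 1) u h01 (hj 0).symm (hj 2).symm i02
      i12.symm (hu _ _)
      ⟨x, y, hxy, hD.adj _ _ _ _ hl0.symm, hD.adj _ _ _ _ hl0.symm, hD.adj _ _ _ _ hl0.symm,
        (hu _ _).symm, hD.adj _ _ _ _ hl0.symm, hD.adj _ _ _ _ hl0.symm,
        hD.adj _ _ _ _ hl0.symm, hy⟩ ?_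
    intro l hl hl'
    have : mC G D u l ≤ 1 := by
      have := sum_two_le (f := mC G D u) hl'
      omega
    obtain ⟨x, y, hxy, hx, hy⟩ := mC_le_one this
    exact ⟨x, y, hxy, ⟨hD.adj _ _ _ _ hl.symm, hD.adj _ _ _ _ hl.symm,
      hD.adj _ _ _ _ hl.symm, hx⟩, ⟨hD.adj _ _ _ _ hl.symm, hD.adj _ _ _ _ hl.symm,
      hD.adj _ _ _ _ hl.symm, hy⟩⟩
  push Not at h
  have hoth : ∀ l, l ≠ j → ∃ a b, a ≠ b ∧ G.Adj u (D l a) ∧ G.Adj u (D l b) := by
    intro l hl
    apply mC_le_one
    have h1 := h l hl
    have h2 := sum_one_le (f := mC G D u) l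
    omega
  by_cases hu2 : G.Adj u (D j 2)
  · left
    have hu0 : ¬ G.Adj u (D j 0) := by
      intro hu0
      apply hF
      refine embed_plain hD hp hp2 j (D j 0) (D j 2) (D j 1) u h01 hu0.symm hu2.symm
        i02 i12.symm (hu _ _) ?_
      intro l hl
      obtain ⟨x, y, hxy, hx, hy⟩ := hoth l hl
      exact ⟨x, y, hxy, ⟨hD.adj _ _ _ _ hl.symm, hD.adj _ _ _ _ hl.symm,
        hD.adj _ _ _ _ hl.symm, hx⟩, ⟨hD.adj _ _ _ _ hl.symm, hD.adj _ _ _ _ hl.symm,
        hD.adj _ _ _ _ hl.symm, hy⟩⟩
    have hu1 : ¬ G.Adj u (D j 1) := by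
      intro hu1
      apply hF
      refine embed_plain hD hp hp2 j (D j 1) (D j 2) (D j 0) u h01.symm hu1.symm hu2.symm
        i12 i02.symm (hu _ _) ?_
      intro l hl
      obtain ⟨x, y, hxy, hx, hy⟩ := hoth l hl
      exact ⟨x, y, hxy, ⟨hD.adj _ _ _ _ hl.symm, hD.adj _ _ _ _ hl.symm,
        hD.adj _ _ _ _ hl.symm, hx⟩, ⟨hD.adj _ _ _ _ hl.symm, hD.adj _ _ _ _ hl.symm,
        hD.adj _ _ _ _ hl.symm, hy⟩⟩
    have hm2 := mC_ge_two (by decide) hu0 hu1
    refine ⟨hu2, ?_, ?_⟩
    · have h2 := sum_one_le (f := mC G D u) j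
      omega
    · intro l hl
      apply mC_eq_zero
      have := sum_two_le (f := mC G D u) hl
      omega
  · right
    have hm1 := mC_ge_one hu2
    have hu01 : G.Adj u (D j 0) ∧ G.Adj u (D j 1) := by
      by_contra hcon
      have hm2 : 2 ≤ mC G D u j := by
        by_cases hu0 : G.Adj u (D j 0)
        · have hu1 : ¬ G.Adj u (D j 1) := fun hh => hcon ⟨hu0, hh⟩
          exact mC_ge_two (by decide) hu1 hu2
        · exact mC_ge_two (by decide) hu0 hu2
      have hzero : ∀ l, l ≠ j → ∀ a, G.Adj u (D l a) := by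
        intro l hl
        apply mC_eq_zero
        have := sum_two_le (f := mC G D u) hl
        omega
      have hsome : G.Adj u (D j 0) ∨ G.Adj u (D j 1) := by
        by_contra hh
        push Not at hh
        have : mC G D u j = 3 := by
          apply mC_three
          intro a
          fin_cases a
          · exact hh.1
          · exact hh.2
          · exact hu2
        have h2 := sum_one_le (f := mC G D u) j
        omega
      apply hpath
      rcases hsome with hs | hs
      · refine ⟨Function.update D j ![u, D j 0, D j 1], hD.update j _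
          (inj3 (hu _ _).symm (hu _ _).symm h01.ne) ?_, j, ?_, ?_⟩
        · intro l hl a b
          refine forall3 (P := fun v => G.Adj v (D l b)) ?_ ?_ ?_ a
          · exact hzero l hl b
          · exact hD.adj _ _ _ _ hl.symm
          · exact hD.adj _ _ _ _ hl.symm
        · rw [Function.update_self]
          exact hs
        · rw [Function.update_self]
          exact h01
      · refine ⟨Function.update D j ![u, D j 1, D j 0], hD.update j _
          (inj3 (hu _ _).symm (hu _ _).symm h01.ne.symm) ?_, j, ?_, ?_⟩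
        · intro l hl a b
          refine forall3 (P := fun v => G.Adj v (D l b)) ?_ ?_ ?_ a
          · exact hzero l hl b
          · exact hD.adj _ _ _ _ hl.symm
          · exact hD.adj _ _ _ _ hl.symm
        · rw [Function.update_self]
          exact hs
        · rw [Function.update_self]
          exact h01.symm
    refine ⟨hu01.1, hu01.2, ?_⟩
    by_cases hall : ∀ l, l ≠ j → mC G D u l = 0
    · exfalso
      apply htri
      refine ⟨Function.update D j ![D j 0, D j 1, u], hD.update j _
          (inj3 h01.ne (hu _ _) (hu _ _)) ?_, j, ?_⟩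
      · intro l hl a b
        refine forall3 (P := fun v => G.Adj v (D l b)) ?_ ?_ ?_ a
        · exact hD.adj _ _ _ _ hl.symm
        · exact hD.adj _ _ _ _ hl.symm
        · exact mC_eq_zero (hall l hl) b
      · rw [Function.update_self]
        intro a b hab
        have e0 : (![D j 0, D j 1, u] : Fin 3 → V) 0 = D j 0 := rfl
        have e1 : (![D j 0, D j 1, u] : Fin 3 → V) 1 = D j 1 := rfl
        have e2 : (![D j 0, D j 1, u] : Fin 3 → V) 2 = u := rfl
        have a01 := h01
        have a02 := hu01.1.symm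
        have a12 := hu01.2.symm
        fin_cases a <;> fin_cases b
        · exact absurd rfl hab
        · exact a01
        · exact a02
        · exact a01.symm
        · exact absurd rfl hab
        · exact a12
        · exact a02.symm
        · exact a12.symm
        · exact absurd rfl hab
    · push Not at hall
      obtain ⟨l0, hl0, hm0⟩ := hall
      have hs := sum_two_le (f := mC G D u) hl0
      have hm01 : mC G D u l0 = 1 := by omega
      obtain ⟨c, hc⟩ : ∃ c, ¬ G.Adj u (D l0 c) := by
        by_contra hcon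
        push Not at hcon
        exact hm0 (mC_eq_zero_iff.mpr hcon)
      refine ⟨l0, c, hl0, hc, ?_⟩
      intro l a hl hla
      by_cases hll : l = l0
      · subst hll
        have hac : a ≠ c := by
          rcases hla with h1 | h1
          · exact absurd rfl h1
          · exact h1
        exact mC_le_one' (by omega) hac.symm hc
      · apply mC_eq_zero
        have := sum_three_le (f := mC G D u) hl0 (Ne.symm hll) (Ne.symm hl)
        omega

/-- Uniqueness of the first kind of exceptional vertices. -/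
theorem edge_unique (hD : IsCopy G D) (hpath : ¬ HasPath ι G) {j : ι}
    {u u' : V} (hu : Outside D u) (hu' : Outside D u') (h2 : G.Adj u (D j 2))
    (h2' : G.Adj u' (D j 2)) (hz : ∀ l, l ≠ j → ∀ a, G.Adj u (D l a))
    (hz' : ∀ l, l ≠ j → ∀ a, G.Adj u' (D l a)) : u = u' := by
  by_contra hne
  apply hpath
  refine ⟨Function.update D j ![u, D j 2, u'], hD.update j _
    (inj3 (hu _ _).symm hne (hu' _ _)) ?_, j, ?_, ?_⟩
  · intro l hl a b
    refine forall3 (P := fun v => G.Adj v (D l b)) ?_ ?_ ?_ a
    · exact hz l hl b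
    · exact hD.adj _ _ _ _ hl.symm
    · exact hz' l hl b
  · rw [Function.update_self]
    exact h2
  · rw [Function.update_self]
    exact h2'.symm

end

end Pool.Agent.GenTuran
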