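import Pool.Agent.GenTuran.Local2

/-!
# Local analysis: a near-triangle class, and the case with no inner edges
-/

open SimpleGraph Finset

namespace Pool.Agent.GenTuran

open scoped Classical

set_option linter.unusedSectionVars false

section

variable {V ι : Type*} [Fintype ι] {G : SimpleGraph V} {D : ι → Fin 3 → V} {p : ℕ}

/-- Replace a class by a triangle one vertex of which misses exactly one vertex of the other
classes: every outside vertex then misses at least three vertices. -/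
theorem star_outside (hD : IsCopy G D) (hp : Fintype.card ι = p) (hp2 : 2 ≤ p)
    (hF : ¬ Fgraph p ⊑ G) {j l0 : ι} (hl0 : l0 ≠ j) {c : Fin 3} (h01 : G.Adj (D j 0) (D j 1))
    {u : V} (hu : Outside D u) (hu0 : G.Adj u (D j 0)) (hu1 : G.Adj u (D j 1))
    (huall : ∀ l a, l ≠ j → (l ≠ l0 ∨ a ≠ c) → G.Adj u (D l a))
    {z : V} (hz : Outside (Function.update D j ![D j 0, D j 1, u]) z) :
    3 ≤ ∑ i, mC G (Function.update D j ![D j 0, D j 1, u]) z i := by
  set E := Function.update D j ![D j 0, D j 1, u] with hE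
  have Ej : E j = ![D j 0, D j 1, u] := by rw [hE, Function.update_self]
  have El : ∀ l, l ≠ j → E l = D l := by
    intro l hl
    rw [hE, Function.update_of_ne hl]
  by_contra hsum
  push Not at hsum
  have zj : ∀ a, E j a ≠ z := hz j
  have zu : u ≠ z := by
    have := zj 2
    rw [Ej] at this
    exact this
  have z0 : D j 0 ≠ z := by
    have := zj 0
    rw [Ej] at this
    exact this
  have z1 : D j 1 ≠ z := by
    have := zj 1
    rw [Ej] at this
    exact this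
  have zl : ∀ l, l ≠ j → ∀ a, D l a ≠ z := by
    intro l hl a
    have := hz l a
    rw [El l hl] at this
    exact this
  have hmE : ∀ l, l ≠ j → mC G D z l = mC G E z l := by
    intro l hl
    unfold mC
    rw [El l hl]
  obtain ⟨c1, hc1, -⟩ := third c c
  obtain ⟨c2, hc2, hc21⟩ := third c c1
  -- case (a)
  by_cases hA : ¬ G.Adj z (D l0 c1) ∧ ¬ G.Adj z (D l0 c2)
  · have hm2 : 2 ≤ mC G E z l0 := by
      rw [← hmE l0 hl0]
      exact mC_ge_two hc21.symm hA.1 hA.2
    have hzj : ∀ a, G.Adj z (E j a) := by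
      apply mC_eq_zero
      have := sum_two_le (f := mC G E z) hl0
      omega
    have hzl : ∀ l, l ≠ j → l ≠ l0 → ∀ a, G.Adj z (D l a) := by
      intro l hl hl'
      apply mC_eq_zero
      rw [hmE l hl]
      have := sum_two_le (f := mC G E z) hl'
      omega
    have hzc : G.Adj z (D l0 c) := by
      by_contra hh
      have : mC G D z l0 = 3 := by
        apply mC_three
        intro a
        rcases fin3_cases hc1.symm hc2.symm hc21.symm a with rfl | rfl | rfl
        · exact hh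
        · exact hA.1
        · exact hA.2
      rw [hmE l0 hl0] at this
      have h2 := sum_one_le (f := mC G E z) l0
      omega
    have hzj0 : G.Adj z (D j 0) := by
      have := hzj 0
      rw [Ej] at this
      exact this
    have hzj1 : G.Adj z (D j 1) := by
      have := hzj 1
      rw [Ej] at this
      exact this
    have hzu : G.Adj z u := by
      have := hzj 2
      rw [Ej] at this
      exact this
    apply hF
    refine embed_plain hD hp hp2 l0 z (D l0 c1) (D l0 c) u hzc hzu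
      (huall l0 c1 hl0 (Or.inr hc1)).symm (zl l0 hl0 c1).symm
      (fun h => hc1 (hD.inj l0 h)) (hu _ _) ?_
    intro l hl
    by_cases hlj : l = j
    · subst hlj
      exact ⟨0, 1, by decide, ⟨hzj0, hD.adj _ _ _ _ hl.symm, hD.adj _ _ _ _ hl.symm, hu0⟩,
        ⟨hzj1, hD.adj _ _ _ _ hl.symm, hD.adj _ _ _ _ hl.symm, hu1⟩⟩
    · exact ⟨0, 1, by decide, ⟨hzl l hlj hl 0, hD.adj _ _ _ _ hl.symm, hD.adj _ _ _ _ hl.symm,
        huall l 0 hlj (Or.inl hl)⟩, ⟨hzl l hlj hl 1, hD.adj _ _ _ _ hl.symm,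
        hD.adj _ _ _ _ hl.symm, huall l 1 hlj (Or.inl hl)⟩⟩
  -- case (b): choose the adjacent one as `c2`
  have hB : ∃ d1 d2, d1 ≠ c ∧ d2 ≠ c ∧ d1 ≠ d2 ∧ G.Adj z (D l0 d2) := by
    by_cases h1 : G.Adj z (D l0 c1)
    · exact ⟨c2, c1, hc2, hc1, hc21, h1⟩
    · by_cases h2 : G.Adj z (D l0 c2)
      · exact ⟨c1, c2, hc1, hc2, hc21.symm, h2⟩
      · exact absurd ⟨h1, h2⟩ hA
  obtain ⟨d1, d2, hd1, hd2, hd12, hzd2⟩ := hB
  have hud1 : G.Adj u (D l0 d1) := huall l0 d1 hl0 (Or.inr hd1)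
  have hud2 : G.Adj u (D l0 d2) := huall l0 d2 hl0 (Or.inr hd2)
  by_cases h1 : ∃ l1, l1 ≠ j ∧ l1 ≠ l0 ∧ mC G E z l1 = 2
  · obtain ⟨l1, hl1j, hl10, hm⟩ := h1
    have hzj : ∀ a, G.Adj z (E j a) := by
      apply mC_eq_zero
      have := sum_two_le (f := mC G E z) hl1j
      omega
    have hzj0 : G.Adj z (D j 0) := by
      have := hzj 0
      rw [Ej] at this
      exact this
    have hzj1 : G.Adj z (D j 1) := by
      have := hzj 1
      rw [Ej] at this
      exact this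
    have hzl : ∀ l, l ≠ j → l ≠ l1 → ∀ a, G.Adj z (D l a) := by
      intro l hl hl'
      apply mC_eq_zero
      rw [hmE l hl]
      have := sum_two_le (f := mC G E z) hl'
      omega
    have hm' : mC G D z l1 ≤ 2 := by
      rw [hmE l1 hl1j]
      omega
    obtain ⟨x, y, hxy, hy⟩ := mC_le_two hm'
    apply hF
    refine embed4 hD hp j l1 hl1j (D j 0) (D j 1) u z hu0.symm hzj0.symm hzj1.symm h01.ne
      (hu _ _) zu
      ⟨x, y, hxy, hD.adj _ _ _ _ hl1j.symm, hD.adj _ _ _ _ hl1j.symm,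
        huall l1 x hl1j (Or.inl hl10), (zl l1 hl1j x).symm, hD.adj _ _ _ _ hl1j.symm,
        hD.adj _ _ _ _ hl1j.symm, huall l1 y hl1j (Or.inl hl10), hy⟩ ?_
    intro l hl hl'
    by_cases hll : l = l0
    · subst hll
      exact ⟨d1, d2, hd12, ⟨hD.adj _ _ _ _ hl.symm, hD.adj _ _ _ _ hl.symm, hud1,
        hzl l hl hl' d1⟩, ⟨hD.adj _ _ _ _ hl.symm, hD.adj _ _ _ _ hl.symm, hud2, hzd2⟩⟩
    · exact ⟨0, 1, by decide, ⟨hD.adj _ _ _ _ hl.symm, hD.adj _ _ _ _ hl.symm,
        huall l 0 hl (Or.inl hll), hzl l hl hl' 0⟩, ⟨hD.adj _ _ _ _ hl.symm,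
        hD.adj _ _ _ _ hl.symm, huall l 1 hl (Or.inl hll), hzl l hl hl' 1⟩⟩
  push Not at h1
  have hoth : ∀ l, l ≠ j → l ≠ l0 → ∃ a b, a ≠ b ∧ G.Adj z (D l a) ∧ G.Adj z (D l b) := by
    intro l hl hl'
    apply mC_le_one
    rw [hmE l hl]
    have h3 := h1 l hl hl'
    have h2 := sum_one_le (f := mC G E z) l
    omega
  -- the triangle `E j`
  have htri : ∀ a b, a ≠ b → G.Adj (E j a) (E j b) := by
    rw [Ej]
    intro a b hab
    have a01 := h01
    have a02 := hu0.symm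
    have a12 := hu1.symm
    fin_cases a <;> fin_cases b
    · exact absurd rfl hab
    · exact a01
    · exact a02
    · exact a01.symm
    · exact absurd rfl hab
    · exact a12
    · exact a02.symm
    · exact a12.symm
    · exact absurd rfl hab
  have hEne : ∀ a b, a ≠ b → E j a ≠ E j b := fun a b hab => (htri a b hab).ne
  -- adjacency of triangle vertices to the class `l`
  have hEl : ∀ a l b, l ≠ j → (l ≠ l0 ∨ b ≠ c) → G.Adj (E j a) (D l b) := by
    intro a l b hl hb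
    rw [Ej]
    refine forall3 (P := fun v => G.Adj v (D l b)) ?_ ?_ ?_ a
    · exact hD.adj _ _ _ _ hl.symm
    · exact hD.adj _ _ _ _ hl.symm
    · exact huall l b hl hb
  by_cases hMj : mC G E z j = 2
  · have hzl : ∀ l, l ≠ j → ∀ a, G.Adj z (D l a) := by
      intro l hl
      apply mC_eq_zero
      rw [hmE l hl]
      have := sum_two_le (f := mC G E z) hl
      omega
    obtain ⟨ta, tk, htak, htk⟩ := mC_le_two (u := z) (i := j) (G := G) (D := E) (by omega)
    obtain ⟨tb, htba, htbk⟩ := third ta tk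
    apply hF
    refine embed_plain hD hp hp2 j (E j ta) z (E j tb) (E j tk) (htri _ _ htba.symm)
      (htri _ _ htak) htk (zj ta) (zj tb).symm (hEne _ _ htbk) ?_
    intro l hl
    by_cases hll : l = l0
    · subst hll
      exact ⟨d1, d2, hd12, ⟨hEl _ _ _ hl (Or.inr hd1), hzl l hl d1, hEl _ _ _ hl (Or.inr hd1),
        hEl _ _ _ hl (Or.inr hd1)⟩, ⟨hEl _ _ _ hl (Or.inr hd2), hzl l hl d2,
        hEl _ _ _ hl (Or.inr hd2), hEl _ _ _ hl (Or.inr hd2)⟩⟩
    · exact ⟨0, 1, by decide, ⟨hEl _ _ _ hl (Or.inl hll), hzl l hl 0, hEl _ _ _ hl (Or.inl hll),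
        hEl _ _ _ hl (Or.inl hll)⟩, ⟨hEl _ _ _ hl (Or.inl hll), hzl l hl 1,
        hEl _ _ _ hl (Or.inl hll), hEl _ _ _ hl (Or.inl hll)⟩⟩
  · have hMj' : mC G E z j ≤ 1 := by
      have h2 := sum_one_le (f := mC G E z) j
      omega
    obtain ⟨ta, tb, htab, hta, htb⟩ := mC_le_one hMj'
    obtain ⟨tk, htka, htkb⟩ := third ta tb
    apply hF
    refine embed4 hD hp j l0 hl0 (E j ta) (E j tb) (E j tk) z (htri _ _ htka.symm)
      hta.symm htb.symm (hEne _ _ htab) (hEne _ _ htkb.symm) (zj tk)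
      ⟨d1, d2, hd12, hEl _ _ _ hl0 (Or.inr hd1), hEl _ _ _ hl0 (Or.inr hd1),
        hEl _ _ _ hl0 (Or.inr hd1), (zl l0 hl0 d1).symm, hEl _ _ _ hl0 (Or.inr hd2),
        hEl _ _ _ hl0 (Or.inr hd2), hEl _ _ _ hl0 (Or.inr hd2), hzd2⟩ ?_
    intro l hl hl'
    obtain ⟨x, y, hxy, hx, hy⟩ := hoth l hl hl'
    exact ⟨x, y, hxy, ⟨hEl _ _ _ hl (Or.inl hl'), hEl _ _ _ hl (Or.inl hl'),
      hEl _ _ _ hl (Or.inl hl'), hx⟩, ⟨hEl _ _ _ hl (Or.inl hl'), hEl _ _ _ hl (Or.inl hl'),
      hEl _ _ _ hl (Or.inl hl'), hy⟩⟩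

/-- In the case with no inner edges, an exceptional outside vertex misses two vertices in
different classes. -/
theorem noedge_outside (hD : IsCopy G D) (hdom : ¬ HasDom ι G) (hedge : ¬ HasEdge ι G)
    {u : V} (hu : Outside D u) (hsum : ∑ i, mC G D u i ≤ 2) :
    ∑ i, mC G D u i = 2 ∧ ∀ i, mC G D u i ≤ 1 := by
  -- if all missed vertices are in one class `i`, there is a copy with an inner edge
  have key : ∀ i, mC G D u i ≤ 2 → ¬ ∀ l, l ≠ i → mC G D u l = 0 := by
    intro i hi hzero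
    obtain ⟨b, a, hba, ha⟩ := mC_le_two hi
    apply hedge
    refine ⟨Function.update D i ![D i a, u, D i b], hD.update i _
      (inj3 (hu _ _) (fun h => hba (hD.inj i h).symm) (hu _ _).symm) ?_, i, ?_⟩
    · intro l hl x y
      refine forall3 (P := fun v => G.Adj v (D l y)) ?_ ?_ ?_ x
      · exact hD.adj _ _ _ _ hl.symm
      · exact mC_eq_zero (hzero l hl) y
      · exact hD.adj _ _ _ _ hl.symm
    · rw [Function.update_self]
      exact ha.symm
  have hne : ∃ i, mC G D u i ≠ 0 := by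
    by_contra hcon
    push Not at hcon
    exact hdom ⟨D, hD, u, fun i a => mC_eq_zero (hcon i) a⟩
  obtain ⟨i, hi⟩ := hne
  have hi2 : mC G D u i ≤ 2 := (sum_one_le (f := mC G D u) i).trans hsum
  have h2 := key i hi2
  push Not at h2
  obtain ⟨l, hl, hl0⟩ := h2
  have h3 := sum_two_le (f := mC G D u) hl
  refine ⟨by omega, ?_⟩
  intro k
  by_cases hki : k = i
  · subst hki
    omega
  by_cases hkl : k = l
  · subst hkl
    omega
  · have := sum_three_le (f := mC G D u) hl (Ne.symm hkl) (Ne.symm hki)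
    omega

/-- Uniqueness of the exceptional vertex in the case with no inner edges. -/
theorem noedge_unique (hD : IsCopy G D) (hp : Fintype.card ι = p) (hp2 : 2 ≤ p)
    (hF : ¬ Fgraph p ⊑ G) {u u' : V} (hu : Outside D u) (hu' : Outside D u')
    (hs : ∑ i, mC G D u i = 2) (hle : ∀ i, mC G D u i ≤ 1)
    (hle' : ∀ i, mC G D u' i ≤ 1) : u = u' := by
  by_contra hne
  -- conflict
  let C : ι → Prop := fun l => ∃ a b, a ≠ b ∧ ¬ G.Adj u (D l a) ∧ ¬ G.Adj u' (D l b)
  have hC : ∀ l, C l → mC G D u l = 1 := by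
    rintro l ⟨a, b, hab, ha, hb⟩
    have := mC_ge_one ha
    have := hle l
    omega
  have hnC : ∀ l, ¬ C l → ∃ a b, a ≠ b ∧ (G.Adj u (D l a) ∧ G.Adj u' (D l a)) ∧
      (G.Adj u (D l b) ∧ G.Adj u' (D l b)) := by
    intro l hl
    -- choose a missed vertex
    by_cases h1 : ∃ a, ¬ G.Adj u (D l a) ∨ ¬ G.Adj u' (D l a)
    · obtain ⟨a, ha⟩ := h1
      obtain ⟨b, hb, -⟩ := third a a
      obtain ⟨c, hc, hcb⟩ := third a b
      have good : ∀ x, x ≠ a → G.Adj u (D l x) ∧ G.Adj u' (D l x) := by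
        intro x hx
        rcases ha with ha | ha
        · refine ⟨mC_le_one' (hle l) hx.symm ha, ?_⟩
          by_contra hh
          exact hl ⟨a, x, hx.symm, ha, hh⟩
        · refine ⟨?_, mC_le_one' (hle' l) hx.symm ha⟩
          by_contra hh
          exact hl ⟨x, a, hx, hh, ha⟩
      exact ⟨b, c, hcb.symm, good b hb, good c hc⟩
    · push Not at h1
      exact ⟨0, 1, by decide, h1 0, h1 1⟩
  have hany : ∀ l, ∃ a b, a ≠ b ∧ G.Adj u' (D l a) ∧ G.Adj u (D l b) ∧ G.Adj u' (D l b) := by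
    intro l
    by_cases hl : C l
    · obtain ⟨a, b, hab, ha, hb⟩ := hl
      obtain ⟨c, hca, hcb⟩ := third a b
      exact ⟨a, c, hca.symm, mC_le_one' (hle' l) hab.symm hb, mC_le_one' (hle l) hca.symm ha,
        mC_le_one' (hle' l) hcb.symm hb⟩
    · obtain ⟨a, b, hab, ha, hb⟩ := hnC l hl
      exact ⟨a, b, hab, ha.2, hb.1, hb.2⟩
  have hany' : ∀ l, ∃ a b, a ≠ b ∧ G.Adj u (D l a) ∧ G.Adj u (D l b) ∧ G.Adj u' (D l b) := by
    intro l
    by_cases hl : C l
    · obtain ⟨a, b, hab, ha, hb⟩ := hl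
      obtain ⟨c, hca, hcb⟩ := third a b
      exact ⟨b, c, hcb.symm, mC_le_one' (hle l) hab ha, mC_le_one' (hle l) hca.symm ha,
        mC_le_one' (hle' l) hcb.symm hb⟩
    · obtain ⟨a, b, hab, ha, hb⟩ := hnC l hl
      exact ⟨a, b, hab, ha.1, hb.1, hb.2⟩
  have hcover : ∃ j l0, l0 ≠ j ∧ ∀ l, l ≠ j → l ≠ l0 → ¬ C l := by
    by_cases h1 : ∃ j, C j
    · obtain ⟨j, hj⟩ := h1
      by_cases h2 : ∃ l0, l0 ≠ j ∧ C l0
      · obtain ⟨l0, hl0, hCl0⟩ := h2
        refine ⟨j, l0, hl0, fun l hl hl' hCl => ?_⟩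
        have := sum_three_le (f := mC G D u) hl0 (Ne.symm hl') (Ne.symm hl)
        have := hC _ hj
        have := hC _ hCl0
        have := hC _ hCl
        omega
      · push Not at h2
        obtain ⟨l0, hl0⟩ := exists_other hp hp2 j
        exact ⟨j, l0, hl0, fun l hl _ => h2 l hl⟩
    · push Not at h1
      have : Nonempty ι := Fintype.card_pos_iff.mp (by omega)
      obtain ⟨j⟩ := this
      obtain ⟨l0, hl0⟩ := exists_other hp hp2 j
      exact ⟨j, l0, hl0, fun l _ _ => h1 l⟩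
  obtain ⟨j, l0, hl0, hcov⟩ := hcover
  obtain ⟨c, c', hcc', huc, hc1, hc2⟩ := hany j
  obtain ⟨x, y, hxy, hx, hy, hy'⟩ := hany' l0
  apply hF
  refine embed4 hD hp j l0 hl0 (D j c') (D j c) u u' hc1.symm hc2.symm huc.symm
    (fun h => hcc' (hD.inj j h).symm) (hu _ _) hne
    ⟨x, y, hxy, hD.adj _ _ _ _ hl0.symm, hD.adj _ _ _ _ hl0.symm, hx, (hu' _ _).symm,
      hD.adj _ _ _ _ hl0.symm, hD.adj _ _ _ _ hl0.symm, hy, hy'⟩ ?_
  intro l hl hl'
  obtain ⟨a, b, hab, ha, hb⟩ := hnC l (hcov l hl hl')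
  exact ⟨a, b, hab, ⟨hD.adj _ _ _ _ hl.symm, hD.adj _ _ _ _ hl.symm, ha.1, ha.2⟩,
    ⟨hD.adj _ _ _ _ hl.symm, hD.adj _ _ _ _ hl.symm, hb.1, hb.2⟩⟩

end

end Pool.Agent.GenTuran
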