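import Pool.Agent.GenTuran.Construct
import Pool.Agent.GenTuran.CopyCount
import Pool.Agent.GenTuran.ErdosStone

/-!
# Progressive induction and the main theorem
-/

open SimpleGraph Finset

namespace Pool.Agent.GenTuran

open scoped Classical

/-- extremal numbers along the relevant sequence -/
noncomputable def ax (p t : ℕ) : ℕ := extremalNumber (p * (3 * t + 2) + 1) (Fgraph p)

/-- the lower bound (twice the number of edges) -/
def Wv (p t : ℕ) : ℕ := p * (p - 1) * (3 * t + 2) ^ 2 + 2 * (p * (3 * t + 2)) + 2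

theorem edgeCard_inst {V : Type*} (G : SimpleGraph V) (i1 i2 : Fintype G.edgeSet) :
    (@edgeFinset V G i1).card = (@edgeFinset V G i2).card := by
  rw [Subsingleton.elim i1 i2]

theorem free_edges_le {V : Type*} [Fintype V] {G : SimpleGraph V} {b : ℕ}
    {F : SimpleGraph (Fin b)} {n : ℕ} (hn : Fintype.card V = n) (h : ¬ F ⊑ G) :
    G.edgeFinset.card ≤ extremalNumber n F := by
  rw [← hn]
  exact card_edgeFinset_le_extremalNumber h

theorem Wv_le (p t : ℕ) (hp : 2 ≤ p) : Wv p t ≤ 2 * ax p t := by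
  obtain ⟨k, rfl⟩ : ∃ k, p = k + 1 := ⟨p - 1, by omega⟩
  have h1 := triG_edges (p := k) (q := 3 * t + 2) (t := t) rfl
  have h2 : (triG k (3 * t + 2)).edgeFinset.card ≤ ax (k + 1) t := by
    apply free_edges_le
    · rw [Fintype.card_option, Fintype.card_prod, Fintype.card_fin, Fintype.card_fin]
    · exact triG_free (by omega)
  unfold Wv
  simp only [Nat.add_sub_cancel]
  omega

theorem Wv_succ (p t : ℕ) (hp : 2 ≤ p) :
    Wv p (t + 1) = Wv p t + target p (p * (3 * (t + 1) + 2) + 1) := by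
  obtain ⟨k, rfl⟩ : ∃ k, p = k + 1 := ⟨p - 1, by omega⟩
  unfold Wv target
  have h1 : (k + 1) * (3 * (t + 1) + 2) + 1 - 3 * (k + 1) = (k + 1) * (3 * t + 2) + 1 := by
    have : (k + 1) * (3 * (t + 1) + 2) + 1 = (k + 1) * (3 * t + 2) + 1 + 3 * (k + 1) := by ring
    omega
  have h2 : 3 * (k + 1) - 3 = 3 * k := by omega
  rw [h1, h2]
  simp only [Nat.add_sub_cancel]
  ring

theorem Fgraph_ne_bot {p : ℕ} (hp : 2 ≤ p) : Fgraph p ≠ ⊥ := by
  intro h
  have h1 : (Fgraph p).Adj (ev p ⟨0, by omega⟩) (ev p ⟨1, by omega⟩) := by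
    apply ev_adj
    intro hh
    simp [Fin.ext_iff] at hh
  rw [h] at h1
  exact h1

theorem exists_extremal (p t : ℕ) (hp : 2 ≤ p) :
    ∃ G : SimpleGraph (Fin (p * (3 * t + 2) + 1)), (¬ Fgraph p ⊑ G) ∧
      G.edgeFinset.card = ax p t := by
  obtain ⟨G, inst, hG⟩ := exists_isExtremal_free (V := Fin (p * (3 * t + 2) + 1))
    (Fgraph_ne_bot hp)
  refine ⟨G, hG.1, ?_⟩
  have := card_edgeFinset_of_isExtremal_free hG
  rw [Fintype.card_fin] at this
  unfold ax
  rw [← this]
  exact edgeCard_inst G _ _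

theorem split_le_gen {V : Type*} [Fintype V] {G : SimpleGraph V} {b : ℕ}
    {F : SimpleGraph (Fin b)} (hF : ¬ F ⊑ G) (S : Finset V) :
    2 * G.edgeFinset.card ≤
      2 * extremalNumber (Fintype.card V - S.card) F + tcount G S := by
  rw [edges_split G S]
  have h1 : (G.induce {v | v ∉ S}).edgeFinset.card ≤
      extremalNumber (Fintype.card V - S.card) F := by
    apply free_edges_le
    · have h2 : Fintype.card {v | v ∉ S} = Sᶜ.card := by
        rw [← Fintype.card_coe]
        apply Fintype.card_congr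
        apply Equiv.subtypeEquivRight
        intro x
        simp
      rw [h2, card_compl]
    · intro h
      exact hF (h.trans ⟨Copy.induce G _⟩)
  omega

/-- splitting off a set of `3p` vertices from a free graph -/
theorem split_le {p t : ℕ} {G : SimpleGraph (Fin (p * (3 * (t + 1) + 2) + 1))}
    (hF : ¬ Fgraph p ⊑ G) (S : Finset (Fin (p * (3 * (t + 1) + 2) + 1))) (hS : S.card = 3 * p) :
    2 * G.edgeFinset.card ≤ 2 * ax p t + tcount G S := by
  have h := split_le_gen hF S
  have e : Fintype.card (Fin (p * (3 * (t + 1) + 2) + 1)) - S.card = p * (3 * t + 2) + 1 := by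
    rw [hS, Fintype.card_fin]
    have : p * (3 * (t + 1) + 2) + 1 = p * (3 * t + 2) + 1 + 3 * p := by ring
    omega
  rw [e] at h
  unfold ax
  exact (Nat.mul_le_mul_left 2 (edgeCard_inst G _ _).le).trans h

theorem stabilise (f : ℕ → ℕ) (t0 : ℕ) (h : ∀ t, t0 ≤ t → f (t + 1) ≤ f t) :
    ∃ t1, t0 ≤ t1 ∧ ∀ t, t1 ≤ t → f (t + 1) = f t := by
  have hex : ∃ m, ∃ t, t0 ≤ t ∧ f t = m := ⟨f t0, t0, le_rfl, rfl⟩
  obtain ⟨t1, ht1, hm⟩ := Nat.find_spec hex
  have hmin : ∀ t, t0 ≤ t → Nat.find hex ≤ f t := fun t ht => Nat.find_min' hex ⟨t, ht, rfl⟩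
  have hle : ∀ t, t1 ≤ t → f t ≤ f t1 := by
    intro t ht
    induction t, ht using Nat.le_induction with
    | base => exact le_rfl
    | succ n hn ih => exact (h n (ht1.trans hn)).trans ih
  have hconst : ∀ t, t1 ≤ t → f t = f t1 := by
    intro t ht
    apply le_antisymm (hle t ht)
    rw [hm]
    exact hmin t (ht1.trans ht)
  refine ⟨t1, ht1, fun t ht => ?_⟩
  rw [hconst (t + 1) (by omega), hconst t ht]

/-- the numerical comparison of the two counts of cherries -/
theorem numeric (p q : ℕ) (hp : 2 ≤ p) (hq : 4 * p + 1 ≤ q) :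
    (q + 1) * ((p - 1) * q + 2).choose 2 + (p - 1) * (q * ((p - 1) * q + 1).choose 2) <
      (p * q).choose 2 + p * q * ((p - 1) * q + 1).choose 2 := by
  obtain ⟨k, rfl⟩ : ∃ k, p = k + 1 := ⟨p - 1, by omega⟩
  simp only [Nat.add_sub_cancel]
  have hq' : (4 * ((k : ℚ) + 1) + 1) ≤ q := by exact_mod_cast hq
  have hk : (0 : ℚ) ≤ k := Nat.cast_nonneg k
  have : (((q + 1) * (k * q + 2).choose 2 + k * (q * (k * q + 1).choose 2) : ℕ) : ℚ) <
      ((((k + 1) * q).choose 2 + (k + 1) * q * (k * q + 1).choose 2 : ℕ) : ℚ) := by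
    push_cast
    rw [Nat.cast_choose_two, Nat.cast_choose_two, Nat.cast_choose_two]
    push_cast
    have h1 : ((k : ℚ) + 1) * q * ((k + 1) * q - 1) / 2 +
        (k + 1) * q * ((k * q + 1) * (k * q + 1 - 1) / 2) -
        ((q + 1) * ((k * q + 2) * (k * q + 2 - 1) / 2) +
          k * (q * ((k * q + 1) * (k * q + 1 - 1) / 2))) =
        (q * (q - 3 - 4 * k) - 2) / 2 := by ring
    have h2 : (0 : ℚ) < (q * (q - 3 - 4 * k) - 2) / 2 := by
      have h3 : (2 : ℚ) ≤ q - 3 - 4 * k := by linarith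
      have h4 : (5 : ℚ) ≤ q := by linarith
      nlinarith
    linarith
  exact_mod_cast this

/-- The main theorem in terms of degree sums. -/
theorem main_cherries (p : ℕ) (hp : 2 ≤ p) : ∃ t0 : ℕ, ∀ t, t0 ≤ t →
    ∀ G : SimpleGraph (Fin (p * (3 * t + 2) + 1)), (¬ Fgraph p ⊑ G) →
      G.edgeFinset.card = ax p t →
      cherries G < (p * (3 * t + 2)).choose 2 +
        p * (3 * t + 2) * ((p - 1) * (3 * t + 2) + 1).choose 2 := by
  obtain ⟨q0, hq0⟩ := exists_copy p hp
  -- recursion
  have hcopy : ∀ t, q0 ≤ t → ∀ G : SimpleGraph (Fin (p * (3 * t + 2) + 1)),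
      G.edgeFinset.card = ax p t →
      ∃ D : Fin p → Fin 3 → Fin (p * (3 * t + 2) + 1), IsCopy G D := by
    intro t ht G hG
    apply hq0 _ (by omega)
    rw [hG]
    have := Wv_le p t hp
    unfold Wv at this
    omega
  have hrec : ∀ t, q0 ≤ t → 2 * ax p (t + 1) ≤
      2 * ax p t + target p (p * (3 * (t + 1) + 2) + 1) := by
    intro t ht
    obtain ⟨G, hF, hG⟩ := exists_extremal p (t + 1) hp
    obtain ⟨D, hD⟩ := hcopy (t + 1) (by omega) G hG
    have hcard : Fintype.card (Fin p) = p := Fintype.card_fin p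
    have hex : ∃ S : Finset (Fin (p * (3 * (t + 1) + 2) + 1)), S.card = 3 * p ∧
        tcount G S ≤ target p (Fintype.card (Fin (p * (3 * (t + 1) + 2) + 1))) := by
      by_cases hdom : HasDom (Fin p) G
      · obtain ⟨D, hD, w, hw⟩ := hdom
        exact ⟨cset D, card_cset hD.injective hcard, (dom_count hD hcard hp hF hw).1⟩
      · by_cases htri : HasTri (Fin p) G
        · obtain ⟨D, hD, j, hj⟩ := htri
          exact ⟨cset D, card_cset hD.injective hcard, (tri_count hD hcard hp hF hj).1⟩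
        · obtain ⟨S, hS, hle⟩ := strict_count hD hcard hp hF hdom htri
          exact ⟨S, hS, by omega⟩
    obtain ⟨S, hS, hle⟩ := hex
    have h1 := split_le hF S hS
    rw [hG] at h1
    rw [Fintype.card_fin] at hle
    omega
  -- stabilisation
  obtain ⟨t1, ht1, hstab⟩ := stabilise (fun t => 2 * ax p t - Wv p t) q0 (by
    intro t ht
    have h1 := hrec t ht
    have h2 := Wv_succ p t hp
    omega)
  have htight : ∀ t, t1 ≤ t → 2 * ax p (t + 1) =
      2 * ax p t + target p (p * (3 * (t + 1) + 2) + 1) := by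
    intro t ht
    have h1 := hstab t ht
    have h2 := Wv_succ p t hp
    have h3 := Wv_le p t hp
    have h4 := Wv_le p (t + 1) hp
    omega
  refine ⟨max t1 (4 * p) + 1, ?_⟩
  intro t ht G hF hG
  obtain ⟨s, rfl⟩ : ∃ s, t = s + 1 := ⟨t - 1, by omega⟩
  have hs1 : t1 ≤ s := by
    have := le_max_left t1 (4 * p)
    omega
  have hs2 : 4 * p ≤ s := by
    have := le_max_right t1 (4 * p)
    omega
  obtain ⟨D, hD⟩ := hcopy (s + 1) (by omega) G hG
  have hcard : Fintype.card (Fin p) = p := Fintype.card_fin p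
  have hN : Fintype.card (Fin (p * (3 * (s + 1) + 2) + 1)) = p * (3 * (s + 1) + 2) + 1 :=
    Fintype.card_fin _
  have hlow : ∀ S : Finset (Fin (p * (3 * (s + 1) + 2) + 1)), S.card = 3 * p →
      target p (Fintype.card (Fin (p * (3 * (s + 1) + 2) + 1))) ≤ tcount G S := by
    intro S hS
    have h1 := split_le hF S hS
    rw [hG, htight s hs1] at h1
    rw [hN]
    omega
  have hW := Wv_le p (s + 1) hp
  rw [← hG] at hW
  unfold Wv at hW
  have hdom : ¬ HasDom (Fin p) G := by
    rintro ⟨D, hD, w, hw⟩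
    obtain ⟨h1, h2⟩ := dom_count hD hcard hp hF hw
    have h3 := h2 (le_antisymm h1 (hlow _ (card_cset hD.injective hcard)))
    have h4 := dom_edges hD hcard hp hF hw hN h3
    omega
  have htri : HasTri (Fin p) G := by
    by_contra htri
    obtain ⟨S, hS, hle⟩ := strict_count hD hcard hp hF hdom htri
    have := hlow S hS
    omega
  obtain ⟨D, hD, j, hj⟩ := htri
  obtain ⟨h1, h2⟩ := tri_count hD hcard hp hF hj
  have h3 := h2 (le_antisymm h1 (hlow _ (card_cset hD.injective hcard)))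
  have h4 := tri_structure hD hcard hp hF hdom hj hN h3 hW
  exact lt_of_le_of_lt h4 (numeric p _ hp (by omega))

theorem cherries_iso {V W : Type*} [Fintype V] [Fintype W] {G : SimpleGraph V}
    {H : SimpleGraph W} (e : G ≃g H) : cherries G = cherries H := by
  unfold cherries
  apply Fintype.sum_equiv e.toEquiv
  intro v
  have : H.degree (e.toEquiv v) = G.degree v := e.degree_eq v
  rw [this]

/-- A large chromatic number. -/
theorem lt_chromaticNumber (p : ℕ) : (p : ℕ∞) < (Fgraph p).chromaticNumber := by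
  rw [← not_le, chromaticNumber_le_iff_colorable]
  rintro ⟨c⟩
  have := Fintype.exists_ne_map_eq_of_card_lt (fun i : Fin (p + 1) => c (ev p i)) (by simp)
  obtain ⟨i, j, hij, h⟩ := this
  exact c.valid (ev_adj hij) h

end Pool.Agent.GenTuran
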