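import Pool.Agent.GenTuran.Count

/-!
# Global structure of the tight graphs
-/

open SimpleGraph Finset

namespace Pool.Agent.GenTuran

open scoped Classical

set_option linter.unusedSectionVars false

section

variable {V ι : Type*} [Fintype V] [Fintype ι] {G : SimpleGraph V} {D E : ι → Fin 3 → V} {p : ℕ}

/-- A graph without a path on four vertices has few edges. -/
theorem p4free_sum (K : SimpleGraph V)
    (hP : ∀ a b c d, K.Adj a b → K.Adj b c → K.Adj c d → a ≠ c → b ≠ d → a ≠ d → False) :
    ∑ v, K.degree v ≤ 2 * (univ.filter fun v => 0 < K.degree v).card := by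
  let B : Finset V := univ.filter fun v => 3 ≤ K.degree v
  have hB : ∀ v, v ∈ B → ∀ u, K.Adj v u → ∀ x, K.Adj u x → x = v := by
    intro v hv u huv x hx
    by_contra hxv
    have hv3 : 3 ≤ K.degree v := by simpa [B] using hv
    have : ∃ y, y ∈ K.neighborFinset v ∧ y ∉ ({u, x} : Finset V) := by
      apply exists_mem_notMem_of_card_lt_card
      rw [card_neighborFinset_eq_degree]
      exact lt_of_le_of_lt (card_le_two) (by omega)
    obtain ⟨y, hy, hyn⟩ := this
    rw [mem_neighborFinset] at hy
    simp only [mem_insert, mem_singleton, not_or] at hyn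
    exact hP y v u x hy.symm huv hx hyn.1 (fun h => hxv h.symm) hyn.2
  have h1 : ∑ v, K.degree v = ∑ v, ((B.filter (K.Adj v)).card +
      if v ∈ B then 0 else K.degree v) := by
    rw [sum_add_distrib]
    have h2 : ∑ v, (B.filter (K.Adj v)).card = ∑ v ∈ B, K.degree v := by
      have h3 : ∀ v, (B.filter (K.Adj v)).card = ∑ u ∈ B, if K.Adj v u then 1 else 0 := by
        intro v
        rw [card_filter]
      rw [sum_congr rfl (fun v _ => h3 v), sum_comm]
      apply sum_congr rfl
      intro v _
      rw [← card_neighborFinset_eq_degree, ← card_filter]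
      congr 1
      ext u
      simp [K.adj_comm]
    rw [h2, ← sum_add_sum_compl B (fun v => K.degree v)]
    congr 1
    have h4 : ∀ v, (if v ∈ B then 0 else K.degree v) = if v ∈ Bᶜ then K.degree v else 0 := by
      intro v
      by_cases hv : v ∈ B <;> simp [hv]
    rw [sum_congr rfl (fun v _ => h4 v), sum_ite_mem, univ_inter]
  rw [h1, card_filter, mul_sum]
  apply sum_le_sum
  intro v _
  by_cases hex : ∃ u, u ∈ B ∧ K.Adj v u
  · obtain ⟨u, hu, huv⟩ := hex
    have hN : ∀ x, K.Adj v x → x = u := hB u hu v huv.symm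
    have hle : (B.filter (K.Adj v)).card ≤ 1 := by
      rw [card_le_one]
      intro a ha b hb
      rw [mem_filter] at ha hb
      rw [hN a ha.2, hN b hb.2]
    have hdeg : K.degree v ≤ 1 := by
      rw [← card_neighborFinset_eq_degree, card_le_one]
      intro a ha b hb
      rw [mem_neighborFinset] at ha hb
      rw [hN a ha, hN b hb]
    have hpos : 0 < K.degree v := by
      rw [← card_neighborFinset_eq_degree, card_pos]
      exact ⟨u, by rw [mem_neighborFinset]; exact huv⟩
    rw [if_pos hpos]
    split_ifs <;> omega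
  · push Not at hex
    have h0 : (B.filter (K.Adj v)).card = 0 := by
      rw [card_eq_zero, filter_eq_empty_iff]
      exact fun u hu => hex u hu
    rw [h0, zero_add]
    by_cases hv : v ∈ B
    · simp [hv]
    · rw [if_neg hv]
      have h3 : ¬ 3 ≤ K.degree v := by
        intro h
        exact hv (by simp [B, h])
      split_ifs <;> omega

/-- Cauchy–Schwarz in the form needed. -/
theorem sum_mul_sub_le (n : ι → ℕ) (hp : Fintype.card ι = p) (hp0 : 0 < p) (q : ℕ)
    (hn : ∑ i, n i = p * q) : ∑ i, n i * (p * q - n i) ≤ p * (p - 1) * q ^ 2 := by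
  have hle : ∀ i, n i ≤ p * q := fun i => by
    rw [← hn]
    exact single_le_sum (f := n) (fun _ _ => Nat.zero_le _) (mem_univ i)
  have h1 : ((∑ i, n i * (p * q - n i) : ℕ) : ℤ) = ∑ i, (n i : ℤ) * (p * q - n i) := by
    push_cast
    apply sum_congr rfl
    intro i _
    rw [Nat.cast_sub (hle i)]
    push_cast
    ring
  have h2 : (0 : ℤ) ≤ ∑ i, ((n i : ℤ) - q) ^ 2 := sum_nonneg (fun i _ => sq_nonneg _)
  have h3 : ∑ i, ((n i : ℤ) - q) ^ 2 = ∑ i, (n i : ℤ) ^ 2 - 2 * q * ∑ i, (n i : ℤ) + p * q ^ 2 := by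
    have : ∀ i, ((n i : ℤ) - q) ^ 2 = (n i : ℤ) ^ 2 - 2 * q * (n i : ℤ) + q ^ 2 := by
      intro i
      ring
    rw [sum_congr rfl (fun i _ => this i), sum_add_distrib, sum_sub_distrib, ← mul_sum, sum_const,
      card_univ, hp, nsmul_eq_mul]
  have h4 : ∑ i, (n i : ℤ) = p * q := by
    rw [← Nat.cast_sum, hn]
    push_cast
    ring
  have h5 : ∑ i, (n i : ℤ) * (p * q - n i) = p * q * ∑ i, (n i : ℤ) - ∑ i, (n i : ℤ) ^ 2 := by
    rw [mul_sum, ← sum_sub_distrib]
    apply sum_congr rfl
    intro i _
    ring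
  have h6 : ((p * (p - 1) * q ^ 2 : ℕ) : ℤ) = p * (p - 1) * q ^ 2 := by
    rw [Nat.cast_mul, Nat.cast_mul, Nat.cast_sub hp0]
    push_cast
    ring
  have h7 : ((∑ i, n i * (p * q - n i) : ℕ) : ℤ) ≤ ((p * (p - 1) * q ^ 2 : ℕ) : ℤ) := by
    rw [h1, h5, h6, h4]
    rw [h3, h4] at h2
    nlinarith
  exact_mod_cast h7

/-- The dominating vertex case: few edges. -/
theorem dom_edges (hD : IsCopy G D) (hp : Fintype.card ι = p) (hp2 : 2 ≤ p)
    (hF : ¬ Fgraph p ⊑ G) {w : V} (hw : ∀ i a, G.Adj w (D i a)) {q : ℕ}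
    (hcard : Fintype.card V = p * q + 1)
    (hall : ∀ v, Outside D v → v ≠ w → ∑ i, mC G D v i = 3) :
    2 * G.edgeFinset.card ≤ p * (p - 1) * q ^ 2 + 2 * (p * q) := by
  have hnoinner := dom_no_inner hD hp hp2 hF hw
  -- class function
  have hclass : ∀ v, v ≠ w → ∃ i, (∀ l, l ≠ i → ∀ a, G.Adj v (D l a)) ∧
      ∀ a, ¬ G.Adj v (D i a) := by
    intro v hvw
    by_cases hv : Outside D v
    · have hs := hall v hv hvw
      obtain ⟨i, hi⟩ := dom_outside hD hp hp2 hF hw hv hvw hs.le
      refine ⟨i, ?_, mC_eq_three hi⟩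
      intro l hl
      apply mC_eq_zero
      have := sum_two_le (f := mC G D v) hl
      omega
    · unfold Outside at hv
      push Not at hv
      obtain ⟨i, a, rfl⟩ := hv
      exact ⟨i, fun l hl b => hD.adj _ _ _ _ hl.symm, fun b => hnoinner i a b⟩
  have : Nonempty ι := Fintype.card_pos_iff.mp (by omega)
  let cl : V → ι := fun v => if h : v ≠ w then (hclass v h).choose else Classical.arbitrary ι
  have hcl1 : ∀ v, v ≠ w → ∀ l, l ≠ cl v → ∀ a, G.Adj v (D l a) := by
    intro v hv
    simp only [cl, hv, dif_pos, ne_eq, not_false_eq_true]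
    exact (hclass v hv).choose_spec.1
  have hcl2 : ∀ v, v ≠ w → ∀ a, ¬ G.Adj v (D (cl v) a) := by
    intro v hv
    simp only [cl, hv, dif_pos, ne_eq, not_false_eq_true]
    exact (hclass v hv).choose_spec.2
  -- inner graph
  obtain ⟨K, hK⟩ : ∃ K : SimpleGraph V, ∀ v u, K.Adj v u ↔
      (G.Adj v u ∧ v ≠ w ∧ u ≠ w ∧ cl v = cl u) :=
    ⟨{ Adj := fun v u => G.Adj v u ∧ v ≠ w ∧ u ≠ w ∧ cl v = cl u
       symm := ⟨fun v u h => ⟨h.1.symm, h.2.2.1, h.2.1, h.2.2.2.symm⟩⟩
       loopless := ⟨fun v h => G.loopless.irrefl v h.1⟩ }, fun v u => Iff.rfl⟩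
  have hKw : ∀ v, 0 < K.degree v → v ≠ w ∧ ¬ G.Adj w v := by
    intro y hy
    rw [← card_neighborFinset_eq_degree, card_pos] at hy
    obtain ⟨z, hz⟩ := hy
    rw [mem_neighborFinset, hK] at hz
    obtain ⟨hyz, hyw, hzw, hcl⟩ := hz
    refine ⟨hyw, fun hwy => ?_⟩
    apply hF
    have hne1 : y ≠ D (cl y) 0 := by
      intro h
      apply hcl2 z hzw 0
      rw [← hcl, ← h]
      exact hyz.symm
    have hne2 : D (cl y) 0 ≠ z := by
      intro h
      apply hcl2 y hyw 0
      rw [h]
      exact hyz
    refine embed_plain hD hp hp2 (cl y) y (D (cl y) 0) z w hyz hwy.symm (hw _ _).symm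
      hne1 hne2 hzw ?_
    intro l hl
    exact ⟨0, 1, by decide, ⟨hcl1 y hyw l hl 0, hD.adj _ _ _ _ hl.symm,
      hcl1 z hzw l (hcl ▸ hl) 0, hw _ _⟩, ⟨hcl1 y hyw l hl 1, hD.adj _ _ _ _ hl.symm,
      hcl1 z hzw l (hcl ▸ hl) 1, hw _ _⟩⟩
  have hP4 : ∀ a b c d, K.Adj a b → K.Adj b c → K.Adj c d → a ≠ c → b ≠ d → a ≠ d → False := by
    intro a b c d h1 h2 h3 hac hbd had
    rw [hK] at h1 h2 h3
    obtain ⟨hab, haw, hbw, e1⟩ := h1
    obtain ⟨hbc, -, hcw, e2⟩ := h2
    obtain ⟨hcd, -, hdw, e3⟩ := h3
    apply hF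
    refine embed_plain hD hp hp2 (cl a) b d a c hab.symm hbc hcd.symm hbd had.symm hac ?_
    intro l hl
    have hb : l ≠ cl b := e1 ▸ hl
    have hc : l ≠ cl c := e2 ▸ hb
    have hd : l ≠ cl d := e3 ▸ hc
    exact ⟨0, 1, by decide, ⟨hcl1 b hbw l hb 0, hcl1 d hdw l hd 0, hcl1 a haw l hl 0,
      hcl1 c hcw l hc 0⟩, ⟨hcl1 b hbw l hb 1, hcl1 d hdw l hd 1, hcl1 a haw l hl 1,
      hcl1 c hcw l hc 1⟩⟩
  have hKsum := p4free_sum K hP4
  -- class sizes
  let n : ι → ℕ := fun i => ((univ.erase w).filter fun v => cl v = i).card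
  have hnsum : ∑ i, n i = p * q := by
    simp only [n]
    rw [← card_eq_sum_card_fiberwise (f := cl) (s := univ.erase w) (t := univ)
      (fun v _ => mem_univ _), card_erase_of_mem (mem_univ w), card_univ, hcard]
    rfl
  -- degree bound
  have hdeg : ∀ v, v ≠ w → G.degree v ≤ (if G.Adj w v then 1 else 0) + (p * q - n (cl v)) +
      K.degree v := by
    intro v hv
    have hsub : G.neighborFinset v ⊆ ((if G.Adj w v then {w} else ∅) ∪
        ((univ.erase w).filter fun u => ¬ cl u = cl v)) ∪ K.neighborFinset v := by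
      intro u hu
      rw [mem_neighborFinset] at hu
      by_cases huw : u = w
      · subst huw
        apply mem_union_left
        apply mem_union_left
        rw [if_pos hu.symm]
        simp
      · by_cases hc : cl u = cl v
        · apply mem_union_right
          rw [mem_neighborFinset, hK]
          exact ⟨hu, hv, huw, hc.symm⟩
        · apply mem_union_left
          apply mem_union_right
          simp [huw, hc]
    have h1 := card_le_card hsub
    rw [card_neighborFinset_eq_degree] at h1
    have h2 : ((univ.erase w).filter fun u => ¬ cl u = cl v).card = p * q - n (cl v) := by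
      have h3 := card_filter_add_card_filter_not (s := univ.erase w) (fun u => cl u = cl v)
      rw [card_erase_of_mem (mem_univ w), card_univ, hcard] at h3
      simp only [n]
      omega
    have h4 : (if G.Adj w v then ({w} : Finset V) else ∅).card = if G.Adj w v then 1 else 0 := by
      split_ifs <;> simp
    calc G.degree v ≤ _ := h1
      _ ≤ (if G.Adj w v then ({w} : Finset V) else ∅).card +
          ((univ.erase w).filter fun u => ¬ cl u = cl v).card + (K.neighborFinset v).card :=
        (card_union_le _ _).trans (Nat.add_le_add_right (card_union_le _ _) _)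
      _ = _ := by rw [h2, h4, card_neighborFinset_eq_degree]
  have hsumG : 2 * G.edgeFinset.card = G.degree w + ∑ v ∈ univ.erase w, G.degree v := by
    rw [← sum_degrees_eq_twice_card_edges,
      add_sum_erase univ (fun v => G.degree v) (mem_univ w)]
  have hs1 : ∑ v ∈ univ.erase w, (if G.Adj w v then 1 else 0) ≤ G.degree w := by
    rw [← card_filter, ← card_neighborFinset_eq_degree]
    apply card_le_card
    intro v hv
    rw [mem_filter] at hv
    rw [mem_neighborFinset]
    exact hv.2
  have hs2 : ∑ v ∈ univ.erase w, (p * q - n (cl v)) = ∑ i, n i * (p * q - n i) := by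
    rw [← sum_fiberwise_of_maps_to (g := cl) (t := univ) (fun v _ => mem_univ _)]
    apply sum_congr rfl
    intro i _
    have : ∀ v ∈ (univ.erase w).filter (fun v => cl v = i), p * q - n (cl v) = p * q - n i := by
      intro v hv
      rw [mem_filter] at hv
      rw [hv.2]
    rw [sum_congr rfl this, sum_const, smul_eq_mul]
  have hs3 : ∑ v ∈ univ.erase w, K.degree v ≤ 2 * (p * q - G.degree w) := by
    calc ∑ v ∈ univ.erase w, K.degree v ≤ ∑ v, K.degree v :=
          sum_le_sum_of_subset (erase_subset _ _)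
      _ ≤ 2 * (univ.filter fun v => 0 < K.degree v).card := hKsum
      _ ≤ 2 * (p * q - G.degree w) := by
          apply Nat.mul_le_mul_left
          have h5 : (univ.filter fun v => 0 < K.degree v) ⊆
              (univ.erase w) \ G.neighborFinset w := by
            intro v hv
            rw [mem_filter] at hv
            have := hKw v hv.2
            rw [mem_sdiff, mem_erase, mem_neighborFinset]
            exact ⟨⟨this.1, mem_univ _⟩, this.2⟩
          refine (card_le_card h5).trans ?_
          rw [card_sdiff_of_subset, card_erase_of_mem (mem_univ w), card_univ, hcard,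
            card_neighborFinset_eq_degree]
          · simp
          · intro v hv
            rw [mem_neighborFinset] at hv
            rw [mem_erase]
            exact ⟨hv.ne.symm, mem_univ _⟩
  have hs4 := sum_mul_sub_le n hp (by omega) q hnsum
  have hdegw : G.degree w ≤ p * q := by
    have := G.degree_lt_card_verts w
    omega
  have hs5 : ∑ v ∈ univ.erase w, G.degree v ≤ ∑ v ∈ univ.erase w,
      ((if G.Adj w v then 1 else 0) + (p * q - n (cl v)) + K.degree v) :=
    sum_le_sum (fun v hv => hdeg v (ne_of_mem_erase hv))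
  rw [sum_add_distrib, sum_add_distrib, hs2] at hs5
  omega

end

end Pool.Agent.GenTuran
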