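import Pool.Agent.GenTuran.Structure

/-!
# Global structure of the tight graphs: triangle case
-/

open SimpleGraph Finset

namespace Pool.Agent.GenTuran

open scoped Classical

set_option linter.unusedSectionVars false

section

variable {V ι : Type*} [Fintype V] [Fintype ι] {G : SimpleGraph V} {D E : ι → Fin 3 → V} {p : ℕ}

/-- The number of paths with three vertices, as a degree sum. -/
noncomputable def cherries (G : SimpleGraph V) : ℕ := ∑ v, (G.degree v).choose 2

theorem tri_structure (hD : IsCopy G D) (hp : Fintype.card ι = p) (hp2 : 2 ≤ p)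
    (hF : ¬ Fgraph p ⊑ G) (hdom : ¬ HasDom ι G) {j0 : ι}
    (htri : ∀ a b, a ≠ b → G.Adj (D j0 a) (D j0 b)) {q : ℕ}
    (hcard : Fintype.card V = p * q + 1)
    (hall : ∀ v, Outside D v → ∑ i, mC G D v i = 3)
    (hedges : p * (p - 1) * q ^ 2 + 2 * (p * q) + 2 ≤ 2 * G.edgeFinset.card) :
    cherries G ≤ (q + 1) * ((p - 1) * q + 2).choose 2 +
      (p - 1) * (q * ((p - 1) * q + 1).choose 2) := by
  -- class function
  have hclass : ∀ v, ∃ i, (∀ l, l ≠ i → ∀ a, G.Adj v (D l a)) ∧
      (Outside D v → ∀ a, ¬ G.Adj v (D i a)) := by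
    intro v
    by_cases hv : Outside D v
    · have hs := hall v hv
      obtain ⟨i, hi⟩ := tri_outside hD hp hp2 hF htri hv hs.le
      refine ⟨i, ?_, fun _ => mC_eq_three hi⟩
      intro l hl
      apply mC_eq_zero
      have := sum_two_le (f := mC G D v) hl
      omega
    · have hv' := hv
      unfold Outside at hv'
      push Not at hv'
      obtain ⟨i, a, rfl⟩ := hv'
      exact ⟨i, fun l hl b => hD.adj _ _ _ _ hl.symm, fun h => absurd h hv⟩
  choose cl hcl1 hcl2 using hclass
  have hclD : ∀ i a, cl (D i a) = i := by
    intro i a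
    by_contra h
    exact G.loopless.irrefl _ (hcl1 (D i a) i (Ne.symm h) a)
  -- inner graph
  obtain ⟨K, hK⟩ : ∃ K : SimpleGraph V, ∀ v u, K.Adj v u ↔ (G.Adj v u ∧ cl v = cl u) :=
    ⟨{ Adj := fun v u => G.Adj v u ∧ cl v = cl u
       symm := ⟨fun v u h => ⟨h.1.symm, h.2.symm⟩⟩
       loopless := ⟨fun v h => G.loopless.irrefl v h.1⟩ }, fun v u => Iff.rfl⟩
  have hK0 : ∀ v, cl v ≠ j0 → K.degree v = 0 := by
    intro v hv
    rw [← card_neighborFinset_eq_degree, card_eq_zero]
    by_contra hne
    rw [← Ne, ← nonempty_iff_ne_empty] at hne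
    obtain ⟨u, hu⟩ := hne
    rw [mem_neighborFinset, hK] at hu
    obtain ⟨hvu, hc⟩ := hu
    have hvout : Outside D v := by
      intro i a h
      have hi : i = cl v := by rw [← h, hclD]
      by_cases hu : Outside D u
      · apply hcl2 u hu a
        rw [← hc, ← hi, h]
        exact hvu.symm
      · unfold Outside at hu
        push Not at hu
        obtain ⟨k, b, hkb⟩ := hu
        have hk : k = cl u := by rw [← hkb, hclD]
        have hki : k = i := by rw [hk, hi, hc]
        subst hki
        refine two_inner hD hp hF (i := j0) (j := k) (a := 0) (b := 1) ?_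
          (htri 0 1 (by decide)) a b ?_
        · intro hh
          exact hv (by rw [← hi, hh])
        · rw [h, hkb]
          exact hvu
    have huout : Outside D u := by
      intro k b hkb
      have hk : k = cl u := by rw [← hkb, hclD]
      apply hcl2 v hvout b
      rw [hc, ← hk, hkb]
      exact hvu
    have hD' : IsCopy G (Function.update D (cl v) ![v, u, D (cl v) 0]) := by
      refine hD.update (cl v) _ (inj3 hvu.ne (hvout _ _).symm (huout _ _).symm) ?_
      intro l hl a b
      refine forall3 (P := fun x => G.Adj x (D l b)) ?_ ?_ ?_ a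
      · exact hcl1 v l hl b
      · exact hcl1 u l (hc ▸ hl) b
      · exact hD.adj _ _ _ _ hl.symm
    refine two_inner hD' hp hF (i := j0) (j := cl v) (a := 0) (b := 1) (Ne.symm hv) ?_ 0 1 ?_
    · rw [Function.update_of_ne (Ne.symm hv)]
      exact htri 0 1 (by decide)
    · rw [Function.update_self]
      exact hvu
  have hK2 : ∀ v, cl v = j0 → K.degree v ≤ 2 := by
    intro v hv
    by_contra hcon
    push Not at hcon
    rw [← card_neighborFinset_eq_degree, two_lt_card] at hcon
    obtain ⟨a, ha, b, hb, c, hc, hab, hac, hbc⟩ := hcon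
    rw [mem_neighborFinset, hK] at ha hb hc
    apply hdom
    refine ⟨Function.update D j0 ![a, b, c], hD.update j0 _ (inj3 hab hac hbc) ?_, v, ?_⟩
    · intro l hl x y
      refine forall3 (P := fun z => G.Adj z (D l y)) ?_ ?_ ?_ x
      · exact hcl1 a l (by rw [← ha.2, hv]; exact hl) y
      · exact hcl1 b l (by rw [← hb.2, hv]; exact hl) y
      · exact hcl1 c l (by rw [← hc.2, hv]; exact hl) y
    · intro i x
      by_cases hi : i = j0
      · subst hi
        rw [Function.update_self]
        exact forall3 (P := fun z => G.Adj v z) ha.1 hb.1 hc.1 x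
      · rw [Function.update_of_ne hi]
        exact hcl1 v i (by rw [hv]; exact hi) x
  -- class sizes
  let n : ι → ℕ := fun i => (univ.filter fun v => cl v = i).card
  have hnsum : ∑ i, n i = p * q + 1 := by
    simp only [n]
    rw [← card_eq_sum_card_fiberwise (f := cl) (s := univ) (t := univ)
      (fun v _ => mem_univ _), card_univ, hcard]
  -- degree bound
  have hdeg : ∀ v, G.degree v ≤ (p * q + 1 - n (cl v)) + (if cl v = j0 then 2 else 0) := by
    intro v
    have hsub : G.neighborFinset v ⊆ (univ.filter fun u => ¬ cl u = cl v) ∪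
        K.neighborFinset v := by
      intro u hu
      rw [mem_neighborFinset] at hu
      by_cases hc : cl u = cl v
      · apply mem_union_right
        rw [mem_neighborFinset, hK]
        exact ⟨hu, hc.symm⟩
      · apply mem_union_left
        simp [hc]
    have h1 := card_le_card hsub
    rw [card_neighborFinset_eq_degree] at h1
    have h2 : (univ.filter fun u => ¬ cl u = cl v).card = p * q + 1 - n (cl v) := by
      have h3 := card_filter_add_card_filter_not (s := univ) (fun u => cl u = cl v)
      rw [card_univ, hcard] at h3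
      simp only [n]
      omega
    have h4 : K.degree v ≤ if cl v = j0 then 2 else 0 := by
      split_ifs with h
      · exact hK2 v h
      · exact (hK0 v h).le
    calc G.degree v ≤ _ := h1
      _ ≤ (univ.filter fun u => ¬ cl u = cl v).card + (K.neighborFinset v).card :=
        card_union_le _ _
      _ ≤ _ := by
        rw [h2, card_neighborFinset_eq_degree]
        exact Nat.add_le_add_left h4 _
  have hfib : ∀ f : ι → ℕ, ∑ v, f (cl v) = ∑ i, n i * f i := by
    intro f
    rw [← sum_fiberwise_of_maps_to (g := cl) (t := univ) (fun v _ => mem_univ _)]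
    apply sum_congr rfl
    intro i _
    have : ∀ v ∈ univ.filter (fun v => cl v = i), f (cl v) = f i := by
      intro v hv
      rw [mem_filter] at hv
      rw [hv.2]
    rw [sum_congr rfl this, sum_const, smul_eq_mul]
  have hle : ∀ i, n i ≤ p * q + 1 := fun i => by
    rw [← hnsum]
    exact single_le_sum (f := n) (fun _ _ => Nat.zero_le _) (mem_univ i)
  have hsumG : 2 * G.edgeFinset.card ≤
      ∑ i, n i * ((p * q + 1 - n i) + (if i = j0 then 2 else 0)) := by
    rw [← sum_degrees_eq_twice_card_edges, ← hfib]
    exact sum_le_sum (fun v _ => hdeg v)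
  -- exact sizes
  have hsizes : ∀ i, n i = q + (if i = j0 then 1 else 0) := by
    let x : ι → ℤ := fun i => (n i : ℤ) - q - (if i = j0 then 1 else 0)
    have hsq : ∑ i, x i ^ 2 ≤ 0 := by
      have hδ : ∑ i : ι, (if i = j0 then (1 : ℤ) else 0) = 1 := by simp
      have hS1 : ∑ i, (n i : ℤ) = p * q + 1 := by
        rw [← Nat.cast_sum, hnsum]
        push_cast
        ring
      have hex : ∀ i, x i ^ 2 = (n i : ℤ) ^ 2 - 2 * q * n i + q ^ 2 -
          2 * (n i) * (if i = j0 then 1 else 0) + 2 * q * (if i = j0 then 1 else 0) +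
          (if i = j0 then 1 else 0) := by
        intro i
        simp only [x]
        split_ifs <;> ring
      have hS2 : ∑ i, x i ^ 2 = ∑ i, (n i : ℤ) ^ 2 - 2 * q * (p * q + 1) + p * q ^ 2 -
          2 * n j0 + 2 * q + 1 := by
        rw [sum_congr rfl (fun i _ => hex i)]
        simp only [sum_add_distrib, sum_sub_distrib, ← mul_sum, hS1, sum_const, card_univ, hp,
          nsmul_eq_mul, hδ]
        have : ∑ i, 2 * (n i : ℤ) * (if i = j0 then 1 else 0) = 2 * n j0 := by simp
        rw [this]
        ring
      have hS3 : ((2 * G.edgeFinset.card : ℕ) : ℤ) ≤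
          (p * q + 1) * (p * q + 1) - ∑ i, (n i : ℤ) ^ 2 + 2 * n j0 := by
        calc ((2 * G.edgeFinset.card : ℕ) : ℤ) ≤
            ((∑ i, n i * ((p * q + 1 - n i) + (if i = j0 then 2 else 0)) : ℕ) : ℤ) := by
              exact_mod_cast hsumG
          _ = ∑ i, ((n i : ℤ) * ((p * q + 1) - n i) + 2 * n i * (if i = j0 then 1 else 0)) := by
              push_cast
              apply sum_congr rfl
              intro i _
              rw [Nat.cast_sub (hle i)]
              push_cast
              split_ifs <;> ring
          _ = _ := by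
              rw [sum_add_distrib]
              have e1 : ∑ i, 2 * (n i : ℤ) * (if i = j0 then 1 else 0) = 2 * n j0 := by simp
              have e2 : ∑ i, (n i : ℤ) * ((p * q + 1) - n i) =
                  (p * q + 1) * (p * q + 1) - ∑ i, (n i : ℤ) ^ 2 := by
                have : ∀ i, (n i : ℤ) * ((p * q + 1) - n i) =
                    (p * q + 1) * n i - (n i : ℤ) ^ 2 := by
                  intro i
                  ring
                rw [sum_congr rfl (fun i _ => this i), sum_sub_distrib, ← mul_sum, hS1]
              rw [e1, e2]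
      have hS4 : ((p * (p - 1) * q ^ 2 + 2 * (p * q) + 2 : ℕ) : ℤ) ≤
          ((2 * G.edgeFinset.card : ℕ) : ℤ) := by exact_mod_cast hedges
      have hS5 : ((p * (p - 1) * q ^ 2 + 2 * (p * q) + 2 : ℕ) : ℤ) =
          p * (p - 1) * q ^ 2 + 2 * (p * q) + 2 := by
        push_cast
        rw [Nat.cast_sub (by omega)]
        push_cast
        ring
      rw [hS5] at hS4
      rw [hS2]
      nlinarith
    intro i
    have hxi : x i ^ 2 = 0 := by
      have h1 : x i ^ 2 ≤ ∑ i, x i ^ 2 :=
        single_le_sum (f := fun i => x i ^ 2) (fun i _ => sq_nonneg (x i)) (mem_univ i)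
      have h2 := sq_nonneg (x i)
      omega
    have hx0 : x i = 0 := by
      exact pow_eq_zero_iff (two_ne_zero) |>.mp hxi
    simp only [x] at hx0
    split_ifs with h
    · rw [if_pos h] at hx0
      omega
    · rw [if_neg h] at hx0
      omega
  -- final degree bounds
  have hpq : p * q = (p - 1) * q + q := by
    obtain ⟨k, rfl⟩ : ∃ k, p = k + 1 := ⟨p - 1, by omega⟩
    simp only [Nat.add_sub_cancel]
    ring
  have hdeg2 : ∀ v, G.degree v ≤ (p - 1) * q + 1 + (if cl v = j0 then 1 else 0) := by
    intro v
    have h1 := hdeg v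
    rw [hsizes] at h1
    split_ifs at h1 ⊢ <;> omega
  calc cherries G ≤ ∑ v, ((p - 1) * q + 1 + (if cl v = j0 then 1 else 0)).choose 2 := by
        unfold cherries
        exact sum_le_sum (fun v _ => Nat.choose_le_choose 2 (hdeg2 v))
    _ = ∑ i, n i * ((p - 1) * q + 1 + (if i = j0 then 1 else 0)).choose 2 :=
        hfib (fun i => ((p - 1) * q + 1 + (if i = j0 then 1 else 0)).choose 2)
    _ = (q + 1) * ((p - 1) * q + 2).choose 2 +
        (p - 1) * (q * ((p - 1) * q + 1).choose 2) := by
        rw [← add_sum_erase univ _ (mem_univ j0)]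
        congr 1
        · rw [hsizes j0, if_pos rfl]
        · have : ∀ i ∈ univ.erase j0, n i * ((p - 1) * q + 1 + (if i = j0 then 1 else 0)).choose 2 =
              q * ((p - 1) * q + 1).choose 2 := by
            intro i hi
            rw [hsizes i, if_neg (ne_of_mem_erase hi)]
            rfl
          rw [sum_congr rfl this, sum_const, card_erase_of_mem (mem_univ j0), card_univ, hp,
            smul_eq_mul]

end

end Pool.Agent.GenTuran
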